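import Pool.Agent.P.MP_985e29_pr.Hi.Shift

/-! The chaining estimate. -/

namespace Pool.Agent.P.MP_985e29_pr.Hi

open Finset

variable {d : ℕ}

open Classical in
/-- possible coarse-grained contours at level `k` -/
noncomputable def fam (i0 : Fin d) (N n k : ℕ) : Finset (Finset (Fin d → ℤ)) :=
  (Box d (N + 1)).powerset.filter fun A =>
    (2 ^ (d - 1)) ^ k * nb A ≤ n ∧ Tour 0 (bdir A i0) ((8 + 2 * d) * n)

theorem four_pow_le (hd : 3 ≤ d) (k : ℕ) : 4 ^ k ≤ (2 ^ (d - 1)) ^ k := by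
  refine Nat.pow_le_pow_left ?_ k
  calc 4 = 2 ^ 2 := by norm_num
    _ ≤ _ := Nat.pow_le_pow_right (by norm_num) (by omega)

theorem bern (k : ℕ) : 1 + (k : ℝ) / 8 ≤ (9 / 8) ^ k := by
  have := one_add_mul_le_pow (show (-2 : ℝ) ≤ 1 / 8 by norm_num) k
  norm_num at this ⊢
  linarith

theorem card_fam (hd : 3 ≤ d) (i0 : Fin d) (N n k : ℕ) :
    ((fam i0 N n k).card : ℝ) ≤ Real.exp (n * (9 / 32) ^ k * (8 * (4 * d + 10))) := by
  classical
  have hl : (0 : ℝ) < 1 / 4 ^ k := by positivity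
  have h1 := card_tours_le hl 0 (n / 4 ^ k) ((8 + 2 * d) * n)
    ((fam i0 N n k).image fun A => bdir A i0) (by
      intro S hS
      obtain ⟨A, hA, rfl⟩ := mem_image.mp hS
      obtain ⟨a1, a2⟩ := (mem_filter.mp hA).2
      refine ⟨(Nat.le_div_iff_mul_le (by positivity)).mpr ?_, a2⟩
      have b1 : (bdir A i0).card ≤ nb A :=
        Finset.single_le_sum (f := fun i => (bdir A i).card) (fun _ _ => Nat.zero_le _)
          (mem_univ i0)
      have b2 := four_pow_le hd k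
      calc _ ≤ nb A * (2 ^ (d - 1)) ^ k := Nat.mul_le_mul b1 b2
        _ ≤ n := by rw [mul_comm]; exact a1)
  rw [card_image_of_injective _ (fun A B h => bdir_injective i0 h)] at h1
  refine h1.trans ?_
  have h4 : (4 : ℝ) ≤ Real.exp 2 := by
    have := Real.add_one_le_exp 1
    rw [show (2 : ℝ) = 1 + 1 by norm_num, Real.exp_add]; nlinarith
  have h41 : (1 : ℝ) ≤ 4 ^ k := one_le_pow₀ (by norm_num)
  have h2 : 1 + (1 + 2 / (1 / (4 : ℝ) ^ k)) ^ d ≤ Real.exp (2 * ((k + 1) * (d + 1))) := by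
    have a1 : 1 + 2 / (1 / (4 : ℝ) ^ k) ≤ 4 ^ (k + 1) := by
      rw [div_div_eq_mul_div, div_one, pow_succ]; linarith
    have a2 : (1 + 2 / (1 / (4 : ℝ) ^ k)) ^ d ≤ (4 ^ (k + 1)) ^ d :=
      pow_le_pow_left₀ (by positivity) a1 d
    have a3 : (1 : ℝ) ≤ (4 ^ (k + 1)) ^ d := one_le_pow₀ (one_le_pow₀ (by norm_num))
    have a4 : (4 : ℝ) ≤ 4 ^ (k + 1) := by rw [pow_succ]; linarith
    have a5 : ((4 : ℝ) ^ (k + 1)) ^ (d + 1) ≤ Real.exp (2 * ((k + 1) * (d + 1))) := by
      rw [← pow_mul, mul_comm 2]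
      have := Real.exp_nat_mul 2 ((k + 1) * (d + 1))
      push_cast at this
      rw [this]
      exact pow_le_pow_left₀ (by norm_num) h4 _
    rw [pow_succ] at a5
    nlinarith
  have h3 : (1 + (1 + 2 / (1 / (4 : ℝ) ^ k)) ^ d) ^ (n / 4 ^ k)
      ≤ Real.exp (n / 4 ^ k * (2 * ((k + 1) * (d + 1)))) := by
    refine (pow_le_pow_left₀ (by positivity) h2 _).trans ?_
    rw [← Real.exp_nat_mul, Real.exp_le_exp]
    refine mul_le_mul_of_nonneg_right ?_ (by positivity)
    have := Nat.cast_div_le (α := ℝ) (m := n) (n := 4 ^ k)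
    simpa using this
  refine (mul_le_mul_of_nonneg_right h3 (Real.exp_pos _).le).trans ?_
  rw [← Real.exp_add, Real.exp_le_exp]
  have e1 : ((9 : ℝ) / 32) ^ k = (9 / 8) ^ k / 4 ^ k := by rw [← div_pow]; norm_num
  have hb := bern k
  rw [e1]
  push_cast
  have hk : (0 : ℝ) ≤ k := Nat.cast_nonneg k
  have hd0 : (0 : ℝ) ≤ d := Nat.cast_nonneg d
  have a6 : 2 * (((k : ℝ) + 1) * (d + 1)) + (8 + 2 * d) ≤ (9 / 8) ^ k * (8 * (4 * d + 10)) := by
    have : ((k : ℝ) + 1) * (4 * d + 10) ≤ (9 / 8) ^ k * (8 * (4 * d + 10)) := by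
      rw [← mul_assoc]
      exact mul_le_mul_of_nonneg_right (by linarith) (by positivity)
    nlinarith [mul_nonneg hk hd0]
  have a7 := mul_le_mul_of_nonneg_left a6 (show (0 : ℝ) ≤ n / 4 ^ k by positivity)
  calc _ = (n : ℝ) / 4 ^ k * (2 * (((k : ℝ) + 1) * (d + 1)) + (8 + 2 * d)) := by ring
    _ ≤ _ := a7
    _ = _ := by ring

/-- the maximal independent set size after shifting the disorder in the level `k` set `A` -/
noncomputable def X (i0 : Fin d) (N k : ℕ) (A : Finset (Fin d → ℤ))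
    (T : Finset ((Fin d → ℤ) ⊕ (Fin d → ℤ))) : ℝ :=
  al (Lam d N) (cfg N (sh (e i0) fun x => par^[k] x ∈ A) T)

/-- large increment at level `k` -/
def EvL (i0 : Fin d) (N n k : ℕ) (T : Finset ((Fin d → ℤ) ⊕ (Fin d → ℤ))) : Prop :=
  ∃ A ∈ fam i0 N n k,
    2 * ((n : ℝ) / (32 * d) * (3 / 4) ^ k) ≤ X i0 N k A T - X i0 N (k + 1) (step A) T

open Classical in
/-- many closed entry points -/
def EvE (i0 : Fin d) (N n : ℕ) (T : Finset ((Fin d → ℤ) ⊕ (Fin d → ℤ))) : Prop :=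
  ∃ A ∈ (fam i0 N n 0).filter fun A => n ≤ 2 * d * (ent A (e i0)).card,
    ((ent A (e i0)).card : ℝ) / 2 ≤ ((ent A (e i0)).filter fun u => Sum.inr u ∈ T).card

theorem prob_EvL (hd : 3 ≤ d) (i0 : Fin d) {p L : ℝ} (h0 : 0 ≤ p) (h1 : p ≤ 1)
    (hL : L = 64 * d * (24 + 8 * (4 * d + 10))) (hp : p * Real.exp L * L * 2 ^ (d + 1) ≤ 1 / (64 * d))
    (N n k : ℕ) :
    Pr p (Var d N) (EvL i0 N n k) ≤ 2 * Real.exp (-(24 * (9 / 32) ^ k * n)) := by
  have hd0 : (0 : ℝ) < d := by exact_mod_cast (show 0 < d by omega)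
  have hL0 : 0 < L := by rw [hL]; positivity
  have each : ∀ A ∈ fam i0 N n k, Pr p (Var d N) (fun T =>
      2 * ((n : ℝ) / (32 * d) * (3 / 4) ^ k) ≤ X i0 N k A T - X i0 N (k + 1) (step A) T)
      ≤ 2 * Real.exp (-(n * (9 / 32) ^ k * (L / (64 * d)))) := by
    intro A hA
    have hA1 : (2 ^ (d - 1)) ^ k * nb A ≤ n := by
      classical exact (mem_filter.mp hA).2.1
    have hc := card_sh_ne (e i0) (fun x => par^[k] x ∈ A) (fun x => par^[k + 1] x ∈ step A)
      ((2 ^ d) ^ k * (2 ^ d * nb A)) (fun U _ => by convert card_level_diff k A U) (Lam d N)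
    have hc2 : 2 * ((2 ^ d) ^ k * (2 ^ d * nb A)) ≤ 2 ^ (d + 1) * 2 ^ k * n := by
      have : 2 ^ d = 2 * 2 ^ (d - 1) := by rw [← pow_succ']; congr 1; omega
      calc _ = 2 ^ (d + 1) * 2 ^ k * ((2 ^ (d - 1)) ^ k * nb A) := by
            conv_lhs => rw [show (2 ^ d) ^ k = 2 ^ k * (2 ^ (d - 1)) ^ k by rw [this, mul_pow]]
            ring
        _ ≤ _ := Nat.mul_le_mul_left _ hA1
    have t := tail_diff (lam := L * (3 / 8) ^ k) (L := L) h0 h1 (by positivity)
      (mul_le_of_le_one_right hL0.le (pow_le_one₀ (by norm_num) (by norm_num)))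
      (Lam d N) (sh (e i0) fun x => par^[k] x ∈ A) (sh (e i0) fun x => par^[k + 1] x ∈ step A)
      (sh_injective _ _).injOn (sh_injective _ _).injOn (Var d N)
      (fun x hx => sh_mem_Var i0 _ hx) (fun x hx => sh_mem_Var i0 _ hx) _ (BD_al (Lam d N))
      ((n : ℝ) / (32 * d) * (3 / 4) ^ k) (2 ^ (d + 1) * 2 ^ k * n)
      (by exact_mod_cast hc.trans hc2)
    refine t.trans (mul_le_mul_of_nonneg_left (Real.exp_le_exp.mpr ?_) (by norm_num))
    have e1 : ((3 : ℝ) / 8) ^ k * (3 / 4) ^ k = (9 / 32) ^ k := by rw [← mul_pow]; norm_num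
    have e2 : (2 : ℝ) ^ k * ((3 / 8) ^ k) ^ 2 = (9 / 32) ^ k := by
      rw [← pow_mul, mul_comm k 2, pow_mul, ← mul_pow]; norm_num
    have e3 : -(L * (3 / 8) ^ k * ((n : ℝ) / (32 * d) * (3 / 4) ^ k))
        + 2 ^ (d + 1) * 2 ^ k * n * (p * Real.exp L * (L * (3 / 8) ^ k) ^ 2)
        = n * (9 / 32) ^ k * L * (p * Real.exp L * L * 2 ^ (d + 1) - 1 / (32 * d)) := by
      conv_rhs => rw [mul_sub]
      conv_rhs => enter [1]; rw [← e2]
      conv_rhs => enter [2]; rw [← e1]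
      ring
    rw [e3]
    have e4 : p * Real.exp L * L * 2 ^ (d + 1) - 1 / (32 * d) ≤ -(1 / (64 * d)) := by
      have : (1 : ℝ) / (32 * d) = 2 * (1 / (64 * d)) := by field_simp; norm_num
      linarith
    refine (mul_le_mul_of_nonneg_left e4 (by positivity)).trans_eq (by ring)
  refine (Pr_exists_le h0 h1 _ _ _).trans ((Finset.sum_le_card_nsmul _ _ _ each).trans ?_)
  rw [nsmul_eq_mul]
  refine (mul_le_mul_of_nonneg_right (card_fam hd i0 N n k) (by positivity)).trans_eq ?_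
  rw [mul_left_comm, ← Real.exp_add]
  congr 2
  rw [hL]; field_simp; ring

theorem prob_EvE (hd : 3 ≤ d) (i0 : Fin d) {p L : ℝ} (h0 : 0 ≤ p) (h1 : p ≤ 1 / 4)
    (hL : L = 64 * d * (24 + 8 * (4 * d + 10))) (hp : p * Real.exp L * L ≤ 1 / 8)
    (N n : ℕ) :
    Pr p (Var d N) (EvE i0 N n) ≤ Real.exp (-(24 * (9 / 32) ^ 0 * n)) := by
  classical
  have hd0 : (0 : ℝ) < d := by exact_mod_cast (show 0 < d by omega)
  have hL0 : 0 < L := by rw [hL]; positivity
  have h1' : p ≤ 1 := by linarith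
  have each : ∀ A ∈ (fam i0 N n 0).filter fun A => n ≤ 2 * d * (ent A (e i0)).card,
      Pr p (Var d N) (fun T =>
      ((ent A (e i0)).card : ℝ) / 2 ≤ ((ent A (e i0)).filter fun u => Sum.inr u ∈ T).card)
      ≤ Real.exp (-(n * (L / (64 * d)))) := by
    intro A hA
    obtain ⟨hA1, hA2⟩ := mem_filter.mp hA
    have hAB : A ⊆ Box d (N + 1) := mem_powerset.mp (mem_filter.mp hA1).1
    set U : Finset ((Fin d → ℤ) ⊕ (Fin d → ℤ)) := (ent A (e i0)).image Sum.inr with hU
    have hUc : U.card = (ent A (e i0)).card := card_image_of_injective _ Sum.inr_injective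
    have hUS : U ⊆ Var d N := by
      intro x hx
      obtain ⟨u, hu, rfl⟩ := mem_image.mp hx
      exact inr_mem_disjSum.mpr (Box_mono (by omega) (hAB (mem_filter.mp hu).1))
    have t := tail_count (lam := L) (L := L) h0 h1' hL0.le le_rfl hUS ((U.card : ℝ) / 4)
    have hn : (n : ℝ) ≤ 2 * d * U.card := by rw [hUc]; exact_mod_cast hA2
    have hU0 : (0 : ℝ) ≤ U.card := Nat.cast_nonneg _
    refine le_trans (Pr_mono h0 h1' fun T _ h => ?_) (t.trans (Real.exp_le_exp.mpr ?_))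
    · have : (U.filter fun x => x ∈ T).card
          = ((ent A (e i0)).filter fun u => Sum.inr u ∈ T).card := by
        rw [hU, filter_image, card_image_of_injective _ Sum.inr_injective]
      rw [this, hUc]
      rw [hUc] at hU0
      nlinarith
    · have a1 : (n : ℝ) * (L / (64 * d)) ≤ 2 * d * U.card * (L / (64 * d)) := by gcongr
      have a2 : 2 * d * U.card * (L / (64 * d)) = U.card * L / 32 := by field_simp; ring
      have a3 : U.card * (p * Real.exp L * L ^ 2) ≤ U.card * L * (1 / 8) := by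
        have := mul_le_mul_of_nonneg_left hp (show 0 ≤ U.card * L by positivity)
        linarith
      have a4 : 0 ≤ U.card * L := by positivity
      linarith
  refine (Pr_exists_le h0 h1' _ _ _).trans ((Finset.sum_le_card_nsmul _ _ _ each).trans ?_)
  rw [nsmul_eq_mul]
  have hc : (((fam i0 N n 0).filter fun A => n ≤ 2 * d * (ent A (e i0)).card).card : ℝ)
      ≤ (fam i0 N n 0).card := by exact_mod_cast card_filter_le _ _
  refine (mul_le_mul_of_nonneg_right (hc.trans (card_fam hd i0 N n 0)) (by positivity)).trans_eq ?_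
  rw [← Real.exp_add]
  congr 1
  rw [hL]; field_simp; ring

theorem X_empty (i0 : Fin d) (N k : ℕ) (T : Finset ((Fin d → ℤ) ⊕ (Fin d → ℤ))) :
    X i0 N k ∅ T = al (Lam d N) (cfg N Sum.inl T) := by
  have : (sh (e i0) fun x => par^[k] x ∈ (∅ : Finset (Fin d → ℤ))) = Sum.inl := by
    funext x; simp [sh]
  rw [X, this]

theorem bad_cases (hd : 3 ≤ d) (i0 : Fin d) (N : ℕ) :
    ∃ M : ℕ, ∀ T : Finset ((Fin d → ℤ) ⊕ (Fin d → ℤ)), Bad N (cfg N Sum.inl T) →
      Sum.inl 0 ∈ T ∨ (∃ n ∈ (range M).filter fun n => 4 ^ 0 ≤ n, EvE i0 N n T) ∨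
        ∃ k ∈ range M, ∃ n ∈ (range M).filter fun n => 4 ^ k ≤ n, EvL i0 N n k T := by
  classical
  have hd0 : (0 : ℝ) < d := by exact_mod_cast (show 0 < d by omega)
  obtain ⟨i1, h01⟩ : ∃ i1 : Fin d, i1 ≠ i0 := by
    have : Nontrivial (Fin d) := Fin.nontrivial_iff_two_le.mpr (by omega)
    exact exists_ne i0
  refine ⟨(Box d (N + 1)).powerset.sup nb + 1, fun T ⟨I, hI, hc, h0⟩ => ?_⟩
  by_contra hcon
  push Not at hcon
  obtain ⟨c1, c2, c3⟩ := hcon
  obtain ⟨A₀, a1, a2, a3⟩ := first_contour hI hc h0 (fun h => c1 (mem_filter.mp h).2)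
  obtain ⟨A, hA, hA0, hG, hT⟩ := exists_contour h01 a1 a2 a3
  set n := nb A with hn
  have hnM : n ∈ range ((Box d (N + 1)).powerset.sup nb + 1) :=
    mem_range.mpr (Nat.lt_succ_of_le (Finset.le_sup (f := nb) (mem_powerset.mpr hA)))
  have hn1 : 1 ≤ n := by
    by_contra h
    have : A = ∅ := eq_empty_of_nb i0 (by omega)
    simp [this] at hA0
  have hfam : ∀ k, step^[k] A ∈ fam i0 N n k := fun k =>
    mem_filter.mpr ⟨mem_powerset.mpr (iter_subset_Box hA k), nb_iter (by omega) A k,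
      (tour_iter (by omega) hT k).mono (bdir_subset_K _ _) (by rw [← hn]; linarith)⟩
  have hempty : ∀ k, n < 4 ^ k → step^[k] A = ∅ := fun k hk => by
    apply eq_empty_of_nb i0
    have b1 := nb_iter (d := d) (by omega) A k
    have b2 := four_pow_le hd k
    by_contra h
    have : 1 ≤ nb (step^[k] A) := by omega
    nlinarith
  have hent := nb_le_ent hG i0
  have c2' := c2 n (mem_filter.mpr ⟨hnM, by simpa using hn1⟩)
  have hE : (((ent A (e i0)).filter fun u => Sum.inr u ∈ T).card : ℝ)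
      < ((ent A (e i0)).card : ℝ) / 2 := by
    by_contra h
    exact c2' ⟨A, mem_filter.mpr ⟨hfam 0, hent⟩, not_lt.mp h⟩
  have hgain := shift_gain i0 hI hA hG
  have hsplit := Finset.card_filter_add_card_filter_not (s := ent A (e i0))
    (fun u => Sum.inr u ∈ T)
  have hX0 : (n : ℝ) / (4 * d) ≤ X i0 N 0 A T - X i0 N n (step^[n] A) T := by
    rw [hempty n (Nat.lt_pow_self (by norm_num)), X_empty, ← hc]
    have b1 : (I.card : ℝ) + ((ent A (e i0)).filter fun u => Sum.inr u ∉ T).card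
        ≤ X i0 N 0 A T := by
      unfold X; exact_mod_cast hgain
    have b2 : (((ent A (e i0)).filter fun u => Sum.inr u ∈ T).card : ℝ)
        + ((ent A (e i0)).filter fun u => Sum.inr u ∉ T).card = (ent A (e i0)).card := by
      exact_mod_cast hsplit
    have b3 : (n : ℝ) ≤ 2 * d * (ent A (e i0)).card := by exact_mod_cast hent
    have b4 : (n : ℝ) / (4 * d) ≤ (ent A (e i0)).card / 2 := by
      rw [div_le_div_iff₀ (by positivity) (by norm_num)]; linarith
    linarith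
  have hn0 : (0 : ℝ) < n := by exact_mod_cast hn1
  have hinc : ∀ k, X i0 N k (step^[k] A) T - X i0 N (k + 1) (step^[k + 1] A) T
      ≤ 2 * ((n : ℝ) / (32 * d) * (3 / 4) ^ k) := by
    intro k
    rw [Function.iterate_succ_apply' step]
    by_cases hk : 4 ^ k ≤ n
    · have hkM : k ∈ range ((Box d (N + 1)).powerset.sup nb + 1) := by
        have := Nat.lt_pow_self (n := k) (show 1 < 4 by norm_num)
        have := mem_range.mp hnM
        exact mem_range.mpr (by omega)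
      have := c3 k hkM n (mem_filter.mpr ⟨hnM, hk⟩)
      by_contra h
      exact this ⟨_, hfam k, (not_le.mp h).le⟩
    · rw [hempty k (by omega), step_empty, X_empty, X_empty, sub_self]
      positivity
  have htel : ∀ K : ℕ, X i0 N 0 A T - X i0 N K (step^[K] A) T
      ≤ (n : ℝ) / (4 * d) * (1 - (3 / 4) ^ K) := by
    intro K
    induction K with
    | zero => simp
    | succ K ih =>
      have := hinc K
      have e1 : (n : ℝ) / (4 * d) * (1 - (3 / 4) ^ (K + 1))
          = (n : ℝ) / (4 * d) * (1 - (3 / 4) ^ K) + 2 * ((n : ℝ) / (32 * d) * (3 / 4) ^ K) := by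
        rw [pow_succ]; field_simp; ring
      rw [e1]; linarith
  have := htel n
  have b5 : 0 < (n : ℝ) / (4 * d) * (3 / 4) ^ n := by positivity
  nlinarith

theorem sum_level (M k : ℕ) :
    ∑ n ∈ (range M).filter (fun n => 4 ^ k ≤ n), Real.exp (-(24 * (9 / 32) ^ k * (n : ℝ)))
      ≤ 1 / 100 * (1 / 2) ^ k := by
  set a : ℝ := 24 * (9 / 32) ^ k with ha
  have ha0 : 0 < a := by positivity
  have h1 := sum_exp_int ha0 (4 ^ k) (((range M).filter (fun n => 4 ^ k ≤ n)).image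
    (Nat.cast : ℕ → ℤ))
  rw [Finset.sum_image (fun x _ y _ h => by exact_mod_cast h)] at h1
  have h2 : ∑ n ∈ (range M).filter (fun n => 4 ^ k ≤ n), Real.exp (-(a * (n : ℝ)))
      = Real.exp (-(a * 4 ^ k)) * ∑ n ∈ (range M).filter (fun n => 4 ^ k ≤ n),
        Real.exp (-(a * ((|(4 : ℤ) ^ k - (n : ℕ)| : ℤ) : ℝ))) := by
    rw [Finset.mul_sum]
    refine Finset.sum_congr rfl fun n hn => ?_
    have : (4 : ℤ) ^ k ≤ n := by exact_mod_cast (mem_filter.mp hn).2
    rw [← Real.exp_add, abs_of_nonpos (by linarith)]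
    congr 1; push_cast; ring
  rw [h2]
  refine (mul_le_mul_of_nonneg_left h1 (Real.exp_pos _).le).trans ?_
  have e1 : a * 4 ^ k = 24 * (9 / 8) ^ k := by
    rw [ha, mul_assoc, ← mul_pow]; norm_num
  have h41 : (1 : ℝ) ≤ 4 ^ k := one_le_pow₀ (by norm_num)
  have h98 : (1 : ℝ) ≤ (9 / 8) ^ k := one_le_pow₀ (by norm_num)
  have h3 : 1 + 2 / a ≤ 2 * 4 ^ k := by
    have : 2 / a ≤ 4 ^ k := by rw [div_le_iff₀ ha0]; nlinarith
    linarith
  have h4 : Real.exp (-(a * 4 ^ k)) ≤ 1 / 200 * (1 / 8) ^ k := by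
    have b1 : Real.exp (-(a * 4 ^ k)) ≤ Real.exp (-24) * Real.exp (-3) ^ k := by
      rw [← Real.exp_nat_mul, ← Real.exp_add, Real.exp_le_exp, e1]
      have := bern k
      linarith
    have b2 : Real.exp (-3) ≤ 1 / 8 := by
      have := Real.add_one_le_exp 1
      rw [Real.exp_neg, ← one_div]
      refine one_div_le_one_div_of_le (by norm_num) ?_
      have h8 := pow_le_pow_left₀ (by norm_num) this 3
      rw [← Real.exp_nat_mul] at h8
      norm_num at h8 ⊢
      exact h8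
    have b3 : Real.exp (-24) ≤ 1 / 200 := by
      have : Real.exp (-24) = Real.exp (-3) ^ 8 := by rw [← Real.exp_nat_mul]; norm_num
      rw [this]
      exact (pow_le_pow_left₀ (Real.exp_pos _).le b2 8).trans (by norm_num)
    refine b1.trans ?_
    gcongr
  calc Real.exp (-(a * 4 ^ k)) * (1 + 2 / a) ≤ (1 / 200 * (1 / 8) ^ k) * (2 * 4 ^ k) := by gcongr
    _ = 1 / 100 * ((1 / 8) ^ k * 4 ^ k) := by ring
    _ = 1 / 100 * (1 / 2) ^ k := by rw [← mul_pow]; norm_num

theorem Pr_mem {κ : Type*} [DecidableEq κ] (p : ℝ) {S : Finset κ} {j : κ} (h : j ∈ S) :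
    Pr p S (fun T => j ∈ T) = p := by
  unfold Pr
  rw [← insert_erase h, E_insert p (notMem_erase _ _)]
  have : E p (S.erase j) (fun T => @ite ℝ (j ∈ T) (Classical.propDecidable _) 1 0)
      = E p (S.erase j) (fun _ => 0) :=
    E_congr p fun T hT => if_neg fun h => notMem_erase _ _ (hT h)
  rw [this]
  simp [E_const]

theorem prob_bad (hd : 3 ≤ d) :
    ∃ p : ℝ, 0 < p ∧ p ≤ 1 / 8 ∧ ∀ N, Pr p (Lam d N) (Bad N) ≤ 1 / 4 := by
  classical
  have hd0 : (0 : ℝ) < d := by exact_mod_cast (show 0 < d by omega)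
  have hd3 : (3 : ℝ) ≤ d := by exact_mod_cast hd
  set L : ℝ := 64 * d * (24 + 8 * (4 * d + 10)) with hL
  have hL1 : 1 ≤ L := by rw [hL]; nlinarith
  have hE1 : 1 ≤ Real.exp L := Real.one_le_exp (by linarith)
  have h21 : (1 : ℝ) ≤ 2 ^ (d + 1) := one_le_pow₀ (by norm_num)
  set p : ℝ := 1 / (64 * d) / (Real.exp L * L * 2 ^ (d + 1)) with hp
  have hp0 : 0 < p := by positivity
  have hp1 : p * Real.exp L * L * 2 ^ (d + 1) ≤ 1 / (64 * d) := by
    rw [hp]; apply le_of_eq; field_simp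
  have h64 : (1 : ℝ) / (64 * d) ≤ 1 / 8 := one_div_le_one_div_of_le (by norm_num) (by linarith)
  have hp2 : p * Real.exp L * L ≤ 1 / 8 := by
    have := mul_le_mul_of_nonneg_left h21 (show 0 ≤ p * Real.exp L * L by positivity)
    linarith
  have hp3 : p ≤ 1 / 8 := by
    have a1 := mul_le_mul_of_nonneg_left hL1 (show 0 ≤ p * Real.exp L by positivity)
    have a2 := mul_le_mul_of_nonneg_left hE1 hp0.le
    linarith
  have h1 : p ≤ 1 := by linarith
  refine ⟨p, hp0, hp3, fun N => ?_⟩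
  let i0 : Fin d := ⟨0, by omega⟩
  obtain ⟨M, hM⟩ := bad_cases hd i0 N
  rw [← Pr_relabel p (Lam d N) (Sum.inl : _ → (Fin d → ℤ) ⊕ (Fin d → ℤ)) Sum.inl_injective.injOn
    (Var d N) (fun x hx => inl_mem_disjSum.mpr (Box_mono (by omega) (mem_Lam.mp hx).1))]
  refine (Pr_mono hp0.le h1 fun T _ h => hM T h).trans ?_
  refine (Pr_or_le hp0.le h1 _ _ _).trans ?_
  have s1 : Pr p (Var d N) (fun T => Sum.inl 0 ∈ T) = p :=
    Pr_mem p (inl_mem_disjSum.mpr (zero_mem_Box _))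
  have s2 : Pr p (Var d N) (fun T => ∃ n ∈ (range M).filter fun n => 4 ^ 0 ≤ n, EvE i0 N n T)
      ≤ 1 / 100 := by
    refine (Pr_exists_le hp0.le h1 _ _ _).trans ((Finset.sum_le_sum fun n _ =>
      prob_EvE hd i0 hp0.le (by linarith) hL hp2 N n).trans ?_)
    simpa using sum_level M 0
  have s3 : Pr p (Var d N) (fun T => ∃ k ∈ range M, ∃ n ∈ (range M).filter fun n => 4 ^ k ≤ n,
      EvL i0 N n k T) ≤ 4 / 100 := by
    refine (Pr_exists_le hp0.le h1 _ _ _).trans ?_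
    have : ∀ k ∈ range M, Pr p (Var d N) (fun T => ∃ n ∈ (range M).filter fun n => 4 ^ k ≤ n,
        EvL i0 N n k T) ≤ 2 / 100 * (1 / 2) ^ k := by
      intro k _
      refine (Pr_exists_le hp0.le h1 _ _ _).trans ((Finset.sum_le_sum fun n _ =>
        prob_EvL hd i0 hp0.le h1 hL hp1 N n k).trans ?_)
      rw [← Finset.mul_sum]
      linarith [sum_level M k]
    refine (Finset.sum_le_sum this).trans ?_
    rw [← Finset.mul_sum]
    have := sum_geometric_two_le M
    linarith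
  refine (add_le_add s1.le ((Pr_or_le hp0.le h1 _ _ _).trans (add_le_add s2 s3))).trans ?_
  linarith

end Pool.Agent.P.MP_985e29_pr.Hi
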