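import Pool.Agent.P.MP_985e29_pr.Hi.Geom

/-! Contours with the fewest boundary edges have a connected boundary. -/

namespace Pool.Agent.P.MP_985e29_pr.Hi

open Finset

variable {d : ℕ}

/-- every boundary edge of `A` has its even end inside `A` and both ends outside `I` -/
def Good (I A : Finset (Fin d → ℤ)) : Prop :=
  ∀ u ∈ A, ∀ w, w ∉ A → D u w = 1 → Ev u ∧ u ∉ I ∧ w ∉ I

/-- indicator -/
def ind (A : Finset (Fin d → ℤ)) (x : Fin d → ℤ) : ℤ := if x ∈ A then 1 else 0

/-- discrete gradient of the indicator -/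
def gr (A : Finset (Fin d → ℤ)) (x : Fin d → ℤ) (i : Fin d) : ℤ := ind A (x + e i) - ind A x

theorem gr_eq_zero {A : Finset (Fin d → ℤ)} {x : Fin d → ℤ} {i : Fin d} :
    gr A x i = 0 ↔ x ∉ bdir A i := by
  simp only [gr, ind, mem_bdir, not_not]
  by_cases h1 : x ∈ A <;> by_cases h2 : x + e i ∈ A <;> simp [h1, h2]

theorem sub_contour {N : ℕ} {I A : Finset (Fin d → ℤ)} (hG : Good I A) (g : (Fin d → ℤ) → ℤ)
    (W : (Fin d → ℤ) → Prop) [DecidablePred W]
    (h1 : ∀ x i, g (x + e i) - g x = if W x then gr A x i else 0)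
    (h2 : ∀ x, x ∉ Box d N → g x = 0) (h3 : 1 ≤ g 0) (h4 : ∃ x ∈ K A, ¬ W x) :
    ∃ A' ⊆ Box d N, 0 ∈ A' ∧ Good I A' ∧ nb A' < nb A := by
  set A' := (Box d N).filter fun x => 1 ≤ g x with hA'
  have mem : ∀ x, x ∈ A' ↔ 1 ≤ g x := fun x => by
    simp only [hA', mem_filter, and_iff_right_iff_imp]
    intro h; by_contra hc; rw [h2 x hc] at h; omega
  refine ⟨A', filter_subset _ _, (mem 0).mpr h3, ?_, ?_⟩
  · intro u hu w hw hD
    rw [mem] at hu hw
    have : u ∈ A ∧ w ∉ A := by
      obtain ⟨i, rfl | rfl⟩ := D_eq_one hD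
      · have := h1 u i
        simp only [gr, ind] at this
        split_ifs at this <;> first | omega | tauto
      · have := h1 w i
        simp only [gr, ind] at this
        split_ifs at this <;> first | omega | tauto
    exact hG u this.1 w this.2 hD
  · have hsub : ∀ i, bdir A' i ⊆ (bdir A i).filter W := by
      intro i x hx
      rw [mem_bdir, mem, mem] at hx
      have := h1 x i
      by_cases hW : W x
      · rw [if_pos hW] at this
        refine mem_filter.mpr ⟨?_, hW⟩
        by_contra hc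
        rw [gr_eq_zero.mpr hc] at this
        exact hx (by rw [sub_eq_zero.mp this])
      · rw [if_neg hW] at this
        exact absurd (by rw [sub_eq_zero.mp this]) hx
    obtain ⟨x, hx, hW⟩ := h4
    obtain ⟨i, hi⟩ := mem_K.mp hx
    refine Finset.sum_lt_sum (fun j _ => (card_le_card (hsub j)).trans (card_filter_le _ _))
      ⟨i, mem_univ i, (card_le_card (hsub i)).trans_lt (card_lt_card ?_)⟩
    exact ⟨filter_subset _ _, fun hc => hW (mem_filter.mp (hc hi)).2⟩

theorem potential {N : ℕ} {A T : Finset (Fin d → ℤ)} (hA : A ⊆ Box d N) {i0 i1 : Fin d}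
    (h01 : i1 ≠ i0) (hsep : ∀ x ∈ T, ∀ y ∈ K A, y ∉ T → 2 < D x y) :
    ∃ g : (Fin d → ℤ) → ℤ, (∀ x i, g (x + e i) - g x = if x ∈ T then gr A x i else 0) ∧
      ∀ x, x ∉ Box d N → g x = 0 := by
  classical
  set h1 : (Fin d → ℤ) → Fin d → ℤ := fun x i => if x ∈ T then gr A x i else 0 with hh1
  have closed : ∀ x i j, h1 x i + h1 (x + e i) j = h1 x j + h1 (x + e j) i := by
    intro x i j
    have key : ∀ a ∈ T, ∀ z k, D a z ≤ 2 → h1 z k = gr A z k := by
      intro a ha z k hz
      simp only [hh1]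
      split_ifs with h
      · rfl
      · symm; rw [gr_eq_zero]
        intro hb
        have := hsep a ha z (bdir_subset_K A k hb) h
        omega
    have d1 : ∀ k, D x (x + e k) ≤ 2 := fun k => by rw [D_add_e]; norm_num
    have d2 : ∀ k, D (x + e k) x ≤ 2 := fun k => by rw [D_comm]; exact d1 k
    have d3 : ∀ k l, D (x + e k) (x + e l) ≤ 2 := fun k l => by
      have := D_triangle (x + e k) x (x + e l)
      rw [D_comm (x + e k) x, D_add_e, D_add_e] at this; omega
    have fin : gr A x i + gr A (x + e i) j = gr A x j + gr A (x + e j) i := by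
      simp only [gr, add_right_comm x (e i) (e j)]; ring
    by_cases c1 : x ∈ T
    · rw [key x c1 x i (by simp), key x c1 x j (by simp), key x c1 _ _ (d1 i), key x c1 _ _ (d1 j),
        fin]
    by_cases c2 : x + e i ∈ T
    · rw [key _ c2 x i (d2 i), key _ c2 x j (d2 i), key _ c2 _ j (d3 i i), key _ c2 _ i (d3 i j),
        fin]
    by_cases c3 : x + e j ∈ T
    · rw [key _ c3 x i (d2 j), key _ c3 x j (d2 j), key _ c3 _ j (d3 j i), key _ c3 _ i (d3 j j),
        fin]
    simp [hh1, c1, c2, c3]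
  set g : (Fin d → ℤ) → ℤ := fun x =>
    ∑ y ∈ T, if (∀ j, j ≠ i0 → y j = x j) ∧ y i0 < x i0 then gr A y i0 else 0 with hg
  have ga : ∀ x, g (x + e i0) - g x = h1 x i0 := by
    intro x
    simp only [hg, hh1]
    rw [← Finset.sum_sub_distrib, ← Finset.sum_ite_eq' T x (fun y => gr A y i0)]
    refine Finset.sum_congr rfl fun y _ => ?_
    have e1 : (∀ j, j ≠ i0 → y j = (x + e i0) j) ↔ (∀ j, j ≠ i0 → y j = x j) := by
      refine forall_congr' fun j => forall_congr' fun hj => ?_
      simp [e_apply, hj]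
    have e3 : (x + e i0) i0 = x i0 + 1 := by simp
    simp only [e1, e3]
    by_cases hy : y = x
    · subst hy; simp
    · rw [if_neg hy]
      by_cases c : ∀ j, j ≠ i0 → y j = x j
      · have : y i0 ≠ x i0 := fun h => hy (funext fun j => by
          by_cases hj : j = i0
          · rw [hj]; exact h
          · exact c j hj)
        have e2 : y i0 < x i0 + 1 ↔ y i0 < x i0 := by omega
        simp [e2]
      · simp [c]
  obtain ⟨R, hR⟩ := exists_lt_bound T i0
  have glow : ∀ x, x i0 < R → g x = 0 := by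
    intro x hx
    refine Finset.sum_eq_zero fun y hy => if_neg ?_
    have := hR y hy
    rintro ⟨-, h⟩; omega
  have gb : ∀ x j, g (x + e j) - g x = h1 x j := by
    intro x j
    by_cases hj : j = i0
    · rw [hj]; exact ga x
    have := ray (fun x => g (x + e j) - g x - h1 x j) 0 i0 R (fun x => by
      have a1 := ga x
      have a2 := ga (x + e j)
      have a3 := closed x i0 j
      rw [add_right_comm x (e i0) (e j)]
      linarith) (fun x hx => by
      have a1 : (x + e j) i0 < R := by simpa [e_apply, Ne.symm hj] using hx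
      have a2 : x ∉ T := fun h => by have := hR x h; omega
      simp [glow x hx, glow _ a1, hh1, a2]) x
    linarith
  have notA : ∀ x : Fin d → ℤ, ∀ j, (x j < -(N : ℤ) ∨ (N : ℤ) < x j) → x ∉ A := fun x j h hx => by
    have := mem_Box.mp (hA hx) j; omega
  have gc : ∀ x : Fin d → ℤ, ∀ j, j ≠ i0 → (x j < -(N : ℤ) ∨ (N : ℤ) < x j) → g x = 0 := by
    intro x j hj hx
    refine Finset.sum_eq_zero fun y _ => ?_
    split_ifs with h
    · have a1 : y ∉ A := notA y j (by rw [h.1 j hj]; exact hx)
      have a2 : y + e i0 ∉ A := notA _ j (by simpa [e_apply, hj, h.1 j hj] using hx)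
      simp [gr, ind, a1, a2]
    · rfl
  refine ⟨g, gb, fun x hx => ?_⟩
  rw [mem_Box] at hx
  push Not at hx
  obtain ⟨j, hj⟩ := hx
  by_cases hj0 : j = i0
  swap
  · exact gc x j hj0 (by omega)
  subst hj0
  by_cases c : x j < -(N : ℤ)
  · refine Finset.sum_eq_zero fun y _ => ?_
    split_ifs with h
    · have a1 : y ∉ A := notA y j (by omega)
      have a2 : y + e j ∉ A := notA _ j (by simp only [Pi.add_apply, e_self]; omega)
      simp [gr, ind, a1, a2]
    · rfl
  · have := ray (fun x => if (N : ℤ) < x j then g x else 0) 0 i1 (-N) (fun x => by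
      have e1 : (x + e i1) j = x j := by simp [e_apply, Ne.symm h01]
      simp only [e1]
      split_ifs with h
      · have a1 : x ∉ A := notA x j (Or.inr h)
        have a2 : x + e i1 ∉ A := notA _ j (Or.inr (by rw [e1]; exact h))
        have := gb x i1
        simp only [hh1, gr, ind, a1, a2, if_false, sub_self, ite_self] at this
        linarith
      · rfl) (fun x hx => by simp [gc x i1 h01 (Or.inl hx)]) x
    simpa [show (N : ℤ) < x j by omega] using this

theorem exit_pos {N : ℕ} {A : Finset (Fin d → ℤ)} (hA : A ⊆ Box d N) (h0 : 0 ∈ A) (i : Fin d) :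
    ∃ b : ℕ, (b : ℤ) • e i ∈ bdir A i := by
  by_contra hc
  push Not at hc
  have : ∀ b : ℕ, (b : ℤ) • e i ∈ A := by
    intro b
    induction b with
    | zero => simpa using h0
    | succ b ih =>
      have := hc b
      rw [mem_bdir, not_not] at this
      push_cast
      rw [add_smul, one_smul]
      exact this.mp ih
  have h1 := mem_Box.mp (hA (this (N + 1))) i
  simp at h1

theorem exit_neg {N : ℕ} {A : Finset (Fin d → ℤ)} (hA : A ⊆ Box d N) (h0 : 0 ∈ A) (i : Fin d) :
    ∃ a : ℕ, (-(a : ℤ) - 1) • e i ∈ bdir A i := by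
  by_contra hc
  push Not at hc
  have : ∀ a : ℕ, (-(a : ℤ)) • e i ∈ A := by
    intro a
    induction a with
    | zero => simpa using h0
    | succ a ih =>
      have := hc a
      rw [mem_bdir, not_not] at this
      have e1 : (-(a : ℤ) - 1) • e i + e i = (-(a : ℤ)) • e i := by
        rw [sub_smul, one_smul, sub_add_cancel]
      rw [e1] at this
      push_cast
      rw [show -((a : ℤ) + 1) = -(a : ℤ) - 1 by ring]
      exact this.mpr ih
  have h1 := mem_Box.mp (hA (this (N + 1))) i
  simp at h1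

theorem D_smul_e (a b : ℤ) (i : Fin d) : D (a • e i) (b • e i) = |a - b| := by
  simp only [D, Pi.smul_apply, smul_eq_mul, e_apply]
  rw [Finset.sum_eq_single i] <;> simp +contextual

/-- From any contour around the origin one gets one whose boundary has a short tour. -/
theorem exists_contour {N : ℕ} {I A₀ : Finset (Fin d → ℤ)} {i0 i1 : Fin d} (h01 : i1 ≠ i0)
    (hA : A₀ ⊆ Box d N) (h0 : 0 ∈ A₀) (hG : Good I A₀) :
    ∃ A ⊆ Box d N, 0 ∈ A ∧ Good I A ∧ Tour 0 (K A) (8 * nb A) := by
  classical
  have hex : ∃ n, ∃ A ⊆ Box d N, 0 ∈ A ∧ Good I A ∧ nb A = n := ⟨_, A₀, hA, h0, hG, rfl⟩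
  obtain ⟨A, hA, h0, hG, hn⟩ := Nat.find_spec hex
  have hmin : ∀ A' ⊆ Box d N, 0 ∈ A' → Good I A' → ¬ nb A' < nb A := fun A' a1 a2 a3 a4 =>
    Nat.find_min hex (hn ▸ a4) ⟨A', a1, a2, a3, rfl⟩
  refine ⟨A, hA, h0, hG, ?_⟩
  have hconn : ∀ T ⊆ K A, T.Nonempty → T ≠ K A → ∃ x ∈ T, ∃ y ∈ K A, y ∉ T ∧ D x y ≤ 2 := by
    intro T hT hne hneq
    by_contra hc
    push Not at hc
    obtain ⟨g, g1, g2⟩ := potential hA h01 hc
    by_cases c : 1 ≤ g 0
    · obtain ⟨A', a1, a2, a3, a4⟩ := sub_contour (N := N) hG g (fun x => x ∈ T) g1 g2 c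
        (by
          by_contra hh
          push Not at hh
          exact hneq (Subset.antisymm hT hh))
      exact hmin A' a1 a2 a3 a4
    · obtain ⟨A', a1, a2, a3, a4⟩ := sub_contour (N := N) hG (fun x => ind A x - g x)
        (fun x => x ∉ T) (fun x i => by
          have := g1 x i
          by_cases hx : x ∈ T
          · simp only [hx, if_true, not_true, if_false, gr] at this ⊢; linarith
          · simp only [hx, if_false, not_false_iff, if_true, gr] at this ⊢; linarith)
        (fun x hx => by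
          have : x ∉ A := fun h => hx (hA h)
          simp [ind, this, g2 x hx])
        (by simp only [ind, h0, if_true]; omega)
        (by obtain ⟨x, hx⟩ := hne; exact ⟨x, hT hx, by simpa using hx⟩)
      exact hmin A' a1 a2 a3 a4
  obtain ⟨b, hb⟩ := exit_pos hA h0 i0
  obtain ⟨a, ha⟩ := exit_neg hA h0 i0
  have ht := tour_of_connected (K A) (bdir_subset_K A i0 hb) hconn
  have h1 := ht.D_le (bdir_subset_K A i0 ha)
  rw [D_smul_e] at h1
  have h2 : D 0 ((b : ℤ) • e i0) = b := by
    have := D_smul_e 0 (b : ℤ) i0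
    simpa using this
  have h3 : ((K A).card : ℤ) ≤ nb A := by exact_mod_cast card_K_le A
  refine (ht.start 0).mono Subset.rfl ?_
  rw [h2]
  have := le_abs_self ((b : ℤ) - (-(a : ℤ) - 1))
  omega

end Pool.Agent.P.MP_985e29_pr.Hi
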