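import Mathlib

/-! Finite product (Bernoulli) expectations over subsets of a finite set, and concentration. -/

namespace Pool.Agent.P.MP_985e29_pr.Hi

open Finset

variable {κ ι : Type*} [DecidableEq κ] [DecidableEq ι]

/-- Expectation of `f T`, where `T ⊆ S` contains each point independently with probability `p`. -/
noncomputable def E (p : ℝ) (S : Finset κ) (f : Finset κ → ℝ) : ℝ :=
  ∑ T ∈ S.powerset, p ^ T.card * (1 - p) ^ (S.card - T.card) * f T

omit [DecidableEq κ] in
@[simp] theorem E_empty (p : ℝ) (f : Finset κ → ℝ) : E p ∅ f = f ∅ := by simp [E]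

theorem E_insert (p : ℝ) {S : Finset κ} {j : κ} (h : j ∉ S) (f : Finset κ → ℝ) :
    E p (insert j S) f = p * E p S (fun T => f (insert j T)) + (1 - p) * E p S f := by
  unfold E
  rw [Finset.sum_powerset_insert h, add_comm, Finset.mul_sum, Finset.mul_sum]
  congr 1
  · refine Finset.sum_congr rfl fun T hT => ?_
    have hT' := mem_powerset.mp hT
    have hj : j ∉ T := fun hj => h (hT' hj)
    rw [card_insert_of_notMem hj, card_insert_of_notMem h, Nat.add_sub_add_right]
    ring
  · refine Finset.sum_congr rfl fun T hT => ?_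
    have hT' := card_le_card (mem_powerset.mp hT)
    rw [card_insert_of_notMem h, show S.card + 1 - T.card = (S.card - T.card) + 1 by omega]
    ring

omit [DecidableEq κ] in
theorem E_congr (p : ℝ) {S : Finset κ} {f g : Finset κ → ℝ} (h : ∀ T ⊆ S, f T = g T) :
    E p S f = E p S g :=
  Finset.sum_congr rfl fun T hT => by rw [h T (mem_powerset.mp hT)]

omit [DecidableEq κ] in
theorem E_mono {p : ℝ} (h0 : 0 ≤ p) (h1 : p ≤ 1) {S : Finset κ} {f g : Finset κ → ℝ}
    (h : ∀ T ⊆ S, f T ≤ g T) : E p S f ≤ E p S g :=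
  Finset.sum_le_sum fun T hT => by
    have : 0 ≤ 1 - p := by linarith
    exact mul_le_mul_of_nonneg_left (h T (mem_powerset.mp hT)) (by positivity)

theorem E_const (p : ℝ) (S : Finset κ) (c : ℝ) : E p S (fun _ => c) = c := by
  induction S using Finset.induction_on with
  | empty => simp
  | insert j S h ih => rw [E_insert p h, ih]; ring

omit [DecidableEq κ] in
theorem E_add (p : ℝ) (S : Finset κ) (f g : Finset κ → ℝ) :
    E p S (fun T => f T + g T) = E p S f + E p S g := by
  simp only [E, mul_add, Finset.sum_add_distrib]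

omit [DecidableEq κ] in
theorem E_sub (p : ℝ) (S : Finset κ) (f g : Finset κ → ℝ) :
    E p S (fun T => f T - g T) = E p S f - E p S g := by
  simp only [E, mul_sub, Finset.sum_sub_distrib]

omit [DecidableEq κ] in
theorem E_neg (p : ℝ) (S : Finset κ) (f : Finset κ → ℝ) :
    E p S (fun T => - f T) = - E p S f := by
  simp only [E, mul_neg, Finset.sum_neg_distrib]

omit [DecidableEq κ] in
theorem E_const_mul (p : ℝ) (S : Finset κ) (c : ℝ) (f : Finset κ → ℝ) :
    E p S (fun T => c * f T) = c * E p S f := by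
  simp only [E, Finset.mul_sum]
  exact Finset.sum_congr rfl fun T _ => by ring

omit [DecidableEq κ] in
theorem E_sum {α : Type*} (p : ℝ) (S : Finset κ) (s : Finset α) (f : α → Finset κ → ℝ) :
    E p S (fun T => ∑ a ∈ s, f a T) = ∑ a ∈ s, E p S (f a) := by
  simp only [E, Finset.mul_sum]
  rw [Finset.sum_comm]

theorem E_union (p : ℝ) {S D : Finset κ} (h : Disjoint S D) (f : Finset κ → ℝ) :
    E p (S ∪ D) f = E p S (fun T₁ => E p D (fun T₂ => f (T₁ ∪ T₂))) := by
  induction S using Finset.induction_on generalizing f with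
  | empty => simp
  | insert j S hj ih =>
    have hjD : j ∉ D := fun hD => (Finset.disjoint_left.mp h) (mem_insert_self j S) hD
    have h' : Disjoint S D := h.mono_left (subset_insert j S)
    rw [insert_union, E_insert p (by simp [hj, hjD]), E_insert p hj, ih h', ih h']
    simp only [insert_union]

theorem E_relabel (p : ℝ) (Λ : Finset ι) (φ : ι → κ) (hφ : Set.InjOn φ Λ) (S : Finset κ)
    (hS : ∀ x ∈ Λ, φ x ∈ S) (f : Finset ι → ℝ) :
    E p S (fun T => f (Λ.filter fun x => φ x ∈ T)) = E p Λ f := by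
  induction Λ using Finset.induction_on generalizing f S with
  | empty => simp [E_const]
  | insert x Λ hx ih =>
    have hxS : φ x ∈ S := hS x (mem_insert_self _ _)
    have hne : ∀ y ∈ Λ, φ y ≠ φ x := fun y hy he => by
      have := hφ (mem_coe.mpr (mem_insert_of_mem hy)) (mem_coe.mpr (mem_insert_self x Λ)) he
      exact hx (this ▸ hy)
    have hφ' : Set.InjOn φ Λ := hφ.mono (by simp)
    have hS' : ∀ y ∈ Λ, φ y ∈ S.erase (φ x) := fun y hy =>
      mem_erase.mpr ⟨hne y hy, hS y (mem_insert_of_mem hy)⟩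
    rw [← insert_erase hxS, E_insert p (notMem_erase _ _), E_insert p hx,
      ← ih hφ' _ hS', ← ih hφ' _ hS']
    congr 2
    · refine E_congr p fun T _ => ?_
      congr 1
      ext y
      simp only [mem_filter, mem_insert]
      constructor
      · rintro ⟨rfl | hy, h2⟩
        · exact Or.inl rfl
        · exact Or.inr ⟨hy, h2.resolve_left (hne y hy)⟩
      · rintro (rfl | ⟨hy, h2⟩)
        · exact ⟨Or.inl rfl, Or.inl rfl⟩
        · exact ⟨Or.inr hy, Or.inr h2⟩
    · refine E_congr p fun T hT => ?_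
      congr 1
      ext y
      simp only [mem_filter, mem_insert]
      constructor
      · rintro ⟨rfl | hy, h2⟩
        · exact absurd (hT h2) (notMem_erase _ _)
        · exact ⟨hy, h2⟩
      · rintro ⟨hy, h2⟩
        exact ⟨Or.inr hy, h2⟩

/-- bounded differences -/
def BD (f : Finset κ → ℝ) : Prop := ∀ (j : κ) (T : Finset κ), |f (insert j T) - f T| ≤ 1

theorem BD.neg {f : Finset κ → ℝ} (h : BD f) : BD (fun T => - f T) := fun j T => by
  have := h j T
  rwa [← abs_neg, neg_sub, sub_eq_neg_add, ← sub_neg_eq_add] at this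

theorem exp_sub_le (x : ℝ) : Real.exp x - 1 - x ≤ x ^ 2 * Real.exp |x| := by
  have h1 : Real.exp x - 1 ≤ x * Real.exp x := by
    have h := Real.add_one_le_exp (-x)
    have h2 : Real.exp (-x) * Real.exp x = 1 := by rw [← Real.exp_add]; simp
    have h3 := mul_le_mul_of_nonneg_right h (Real.exp_pos x).le
    nlinarith
  rcases le_total 0 x with hx | hx
  · rw [abs_of_nonneg hx]
    nlinarith [mul_le_mul_of_nonneg_left h1 hx]
  · have h2 := Real.add_one_le_exp x
    have h3 : 1 ≤ Real.exp |x| := Real.one_le_exp (abs_nonneg x)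
    have h4 : Real.exp x ≤ 1 := Real.exp_le_one_iff.mpr hx
    have h5 : x * Real.exp x ≤ x + x ^ 2 := by nlinarith
    nlinarith [sq_nonneg x]

theorem two_point {p lam L a : ℝ} (h0 : 0 ≤ p) (hl : 0 ≤ lam) (hL : lam ≤ L) (ha : |a| ≤ 1) :
    p * Real.exp (lam * ((1 - p) * a)) + (1 - p) * Real.exp (lam * (- (p * a)))
      ≤ Real.exp (p * Real.exp L * lam ^ 2) := by
  set x := lam * a with hx
  have hxa : |x| ≤ lam := by
    rw [hx, abs_mul, abs_of_nonneg hl]; exact mul_le_of_le_one_right hl ha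
  have e1 : p * Real.exp (lam * ((1 - p) * a)) + (1 - p) * Real.exp (lam * (- (p * a)))
      = Real.exp (-(p * x)) * (p * (Real.exp x - 1) + 1) := by
    rw [show lam * ((1 - p) * a) = -(p * x) + x by rw [hx]; ring,
      show lam * (- (p * a)) = -(p * x) by rw [hx]; ring, Real.exp_add]
    ring
  rw [e1]
  have h2 := Real.add_one_le_exp (p * (Real.exp x - 1))
  refine (mul_le_mul_of_nonneg_left h2 (Real.exp_pos _).le).trans ?_
  rw [← Real.exp_add, Real.exp_le_exp]
  have h3 := exp_sub_le x
  have h4 : x ^ 2 ≤ lam ^ 2 := by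
    rw [← sq_abs x]; exact pow_le_pow_left₀ (abs_nonneg x) hxa 2
  have h5 : Real.exp |x| ≤ Real.exp L := Real.exp_le_exp.mpr (hxa.trans hL)
  have h6 : x ^ 2 * Real.exp |x| ≤ lam ^ 2 * Real.exp L := by gcongr
  have h7 := mul_le_mul_of_nonneg_left (h3.trans h6) h0
  nlinarith

theorem E_exp_le {p lam L : ℝ} (h0 : 0 ≤ p) (h1 : p ≤ 1) (hl : 0 ≤ lam) (hL : lam ≤ L)
    (D : Finset κ) (f : Finset κ → ℝ) (hf : BD f) :
    E p D (fun T => Real.exp (lam * (f T - E p D f)))
      ≤ Real.exp (D.card * (p * Real.exp L * lam ^ 2)) := by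
  induction D using Finset.induction_on generalizing f with
  | empty => simp
  | insert j D hj ih =>
    have hf1 : BD (fun T => f (insert j T)) := fun i T => by
      simp only [Finset.insert_comm j i]; exact hf i _
    have i1 := ih _ hf1
    have i0 := ih _ hf
    set m1 := E p D (fun T => f (insert j T)) with hm1
    set m0 := E p D f with hm0
    have ha : |m1 - m0| ≤ 1 := by
      rw [hm1, hm0, ← E_sub, abs_le]
      constructor
      · rw [← E_const p D (-1)]
        exact E_mono h0 h1 fun T _ => (abs_le.mp (hf j T)).1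
      · rw [← E_const p D 1]
        exact E_mono h0 h1 fun T _ => (abs_le.mp (hf j T)).2
    rw [E_insert p hj, E_insert p hj, ← hm1, ← hm0]
    have e1 : (fun T => Real.exp (lam * (f (insert j T) - (p * m1 + (1 - p) * m0))))
        = fun T => Real.exp (lam * ((1 - p) * (m1 - m0)))
            * Real.exp (lam * (f (insert j T) - m1)) := by
      funext T; rw [← Real.exp_add]; congr 1; ring
    have e0 : (fun T => Real.exp (lam * (f T - (p * m1 + (1 - p) * m0))))
        = fun T => Real.exp (lam * (-(p * (m1 - m0)))) * Real.exp (lam * (f T - m0)) := by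
      funext T; rw [← Real.exp_add]; congr 1; ring
    rw [e1, e0, E_const_mul, E_const_mul, card_insert_of_notMem hj]
    have hq : 0 ≤ 1 - p := by linarith
    have t := two_point (L := L) h0 hl hL ha
    set B := Real.exp (D.card * (p * Real.exp L * lam ^ 2)) with hB
    have hBpos : 0 < B := Real.exp_pos _
    calc _ ≤ p * (Real.exp (lam * ((1 - p) * (m1 - m0))) * B)
          + (1 - p) * (Real.exp (lam * (-(p * (m1 - m0)))) * B) := by gcongr
      _ = (p * Real.exp (lam * ((1 - p) * (m1 - m0)))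
          + (1 - p) * Real.exp (lam * (-(p * (m1 - m0))))) * B := by ring
      _ ≤ Real.exp (p * Real.exp L * lam ^ 2) * B := by gcongr
      _ = _ := by rw [hB, ← Real.exp_add]; congr 1; push_cast; ring

open Classical in
/-- Probability of an event. -/
noncomputable def Pr (p : ℝ) (S : Finset κ) (A : Finset κ → Prop) : ℝ :=
  E p S (fun T => if A T then 1 else 0)

omit [DecidableEq κ] in
theorem Pr_mono {p : ℝ} (h0 : 0 ≤ p) (h1 : p ≤ 1) {S : Finset κ} {A B : Finset κ → Prop}
    (h : ∀ T ⊆ S, A T → B T) : Pr p S A ≤ Pr p S B := by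
  refine E_mono h0 h1 fun T hT => ?_
  by_cases hA : A T
  · simp [hA, h T hT hA]
  · simp only [hA, if_false]; split_ifs <;> norm_num

omit [DecidableEq κ] in
theorem Pr_or_le {p : ℝ} (h0 : 0 ≤ p) (h1 : p ≤ 1) (S : Finset κ) (A B : Finset κ → Prop) :
    Pr p S (fun T => A T ∨ B T) ≤ Pr p S A + Pr p S B := by
  unfold Pr
  rw [← E_add]
  refine E_mono h0 h1 fun T _ => ?_
  by_cases hA : A T <;> by_cases hB : B T <;> simp [hA, hB]

omit [DecidableEq κ] in
theorem Pr_exists_le {α : Type*} {p : ℝ} (h0 : 0 ≤ p) (h1 : p ≤ 1) (S : Finset κ) (s : Finset α)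
    (A : α → Finset κ → Prop) :
    Pr p S (fun T => ∃ a ∈ s, A a T) ≤ ∑ a ∈ s, Pr p S (A a) := by
  classical
  unfold Pr
  rw [← E_sum]
  refine E_mono h0 h1 fun T _ => ?_
  by_cases h : ∃ a ∈ s, A a T
  · obtain ⟨a, ha, hA⟩ := id h
    rw [if_pos h]
    refine le_trans ?_ (Finset.single_le_sum (f := fun a => if A a T then (1 : ℝ) else 0)
      (fun a _ => by split_ifs <;> norm_num) ha)
    simp [hA]
  · rw [if_neg h]
    exact Finset.sum_nonneg fun a _ => by split_ifs <;> norm_num

theorem Pr_relabel (p : ℝ) (Λ : Finset ι) (φ : ι → κ) (hφ : Set.InjOn φ Λ) (S : Finset κ)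
    (hS : ∀ x ∈ Λ, φ x ∈ S) (A : Finset ι → Prop) :
    Pr p S (fun T => A (Λ.filter fun x => φ x ∈ T)) = Pr p Λ A := by
  classical
  exact E_relabel p Λ φ hφ S hS (fun T => if A T then 1 else 0)

/-- conditional mean after resampling the coordinates in `D` -/
noncomputable def cm (p : ℝ) (D : Finset κ) (F : Finset κ → ℝ) (T : Finset κ) : ℝ :=
  E p D (fun T₂ => F (T \ D ∪ T₂))

theorem cm_neg (p : ℝ) (D : Finset κ) (F : Finset κ → ℝ) (T : Finset κ) :
    cm p D (fun T => - F T) T = - cm p D F T := E_neg _ _ _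

theorem tail {p lam L : ℝ} (h0 : 0 ≤ p) (h1 : p ≤ 1) (hl : 0 ≤ lam) (hL : lam ≤ L)
    {Λ D : Finset κ} (hD : D ⊆ Λ) (F : Finset κ → ℝ) (hF : BD F) (t : ℝ) :
    Pr p Λ (fun T => t ≤ F T - cm p D F T)
      ≤ Real.exp (- (lam * t) + D.card * (p * Real.exp L * lam ^ 2)) := by
  have s1 : Pr p Λ (fun T => t ≤ F T - cm p D F T)
      ≤ E p Λ (fun T => Real.exp (-(lam * t)) * Real.exp (lam * (F T - cm p D F T))) := by
    refine E_mono h0 h1 fun T _ => ?_
    split_ifs with h
    · rw [← Real.exp_add]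
      exact Real.one_le_exp (by nlinarith [mul_le_mul_of_nonneg_left h hl])
    · positivity
  refine s1.trans ?_
  rw [E_const_mul, Real.exp_add]
  refine mul_le_mul_of_nonneg_left ?_ (Real.exp_pos _).le
  rw [← sdiff_union_of_subset hD, E_union p sdiff_disjoint,
    ← E_const p (Λ \ D) (Real.exp (D.card * (p * Real.exp L * lam ^ 2)))]
  refine E_mono h0 h1 fun T₁ hT₁ => ?_
  have hb : BD (fun T₂ => F (T₁ ∪ T₂)) := fun j T => by
    simp only [union_insert]; exact hF j _
  refine le_trans (le_of_eq ?_) (E_exp_le h0 h1 hl hL D _ hb)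
  refine E_congr p fun T₂ hT₂ => ?_
  have : (T₁ ∪ T₂) \ D = T₁ := by
    ext x
    simp only [mem_sdiff, mem_union]
    constructor
    · rintro ⟨h | h, h'⟩
      · exact h
      · exact absurd (hT₂ h) h'
    · intro h
      exact ⟨Or.inl h, (mem_sdiff.mp (hT₁ h)).2⟩
  simp only [cm, this]

/-- Two relabelled copies of the configuration that agree off `D` give close values of `F`. -/
theorem tail_diff {p lam L : ℝ} (h0 : 0 ≤ p) (h1 : p ≤ 1) (hl : 0 ≤ lam) (hL : lam ≤ L)
    (Λ : Finset ι) (φ ψ : ι → κ) (hφ : Set.InjOn φ Λ) (hψ : Set.InjOn ψ Λ) (S : Finset κ)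
    (hSφ : ∀ x ∈ Λ, φ x ∈ S) (hSψ : ∀ x ∈ Λ, ψ x ∈ S) (F : Finset ι → ℝ) (hF : BD F)
    (t N : ℝ) (hN : ((Λ.filter fun x => φ x ≠ ψ x).card : ℝ) ≤ N) :
    Pr p S (fun T => 2 * t ≤ F (Λ.filter fun x => φ x ∈ T) - F (Λ.filter fun x => ψ x ∈ T))
      ≤ 2 * Real.exp (- (lam * t) + N * (p * Real.exp L * lam ^ 2)) := by
  set D := Λ.filter fun x => φ x ≠ ψ x with hDdef
  have hD : D ⊆ Λ := filter_subset _ _
  have t1 := tail h0 h1 hl hL hD F hF t
  have t2 := tail h0 h1 hl hL hD _ hF.neg t
  rw [← Pr_relabel p Λ φ hφ S hSφ] at t1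
  rw [← Pr_relabel p Λ ψ hψ S hSψ] at t2
  have hb : Real.exp (- (lam * t) + D.card * (p * Real.exp L * lam ^ 2))
      ≤ Real.exp (- (lam * t) + N * (p * Real.exp L * lam ^ 2)) := by gcongr
  refine le_trans (Pr_mono h0 h1 fun T _ h => ?_) ((Pr_or_le h0 h1 S _ _).trans
    ((add_le_add (t1.trans hb) (t2.trans hb)).trans_eq (two_mul _).symm))
  have e : (Λ.filter fun x => φ x ∈ T) \ D = (Λ.filter fun x => ψ x ∈ T) \ D := by
    ext x
    simp only [hDdef, mem_sdiff, mem_filter, not_and, not_not]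
    constructor
    · rintro ⟨⟨a, b⟩, c⟩; exact ⟨⟨a, c a ▸ b⟩, c⟩
    · rintro ⟨⟨a, b⟩, c⟩; exact ⟨⟨a, (c a).symm ▸ b⟩, c⟩
  have e2 : cm p D F (Λ.filter fun x => φ x ∈ T) = cm p D F (Λ.filter fun x => ψ x ∈ T) := by
    simp only [cm, e]
  rw [cm_neg, e2]
  by_contra hc
  push Not at hc
  linarith [hc.1, hc.2]

/-- The number of closed points in `U` rarely exceeds its mean by `t`. -/
theorem tail_count {p lam L : ℝ} (h0 : 0 ≤ p) (h1 : p ≤ 1) (hl : 0 ≤ lam) (hL : lam ≤ L)
    {S U : Finset κ} (hU : U ⊆ S) (t : ℝ) :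
    Pr p S (fun T => p * U.card + t ≤ ((U.filter fun x => x ∈ T).card : ℝ))
      ≤ Real.exp (- (lam * t) + U.card * (p * Real.exp L * lam ^ 2)) := by
  have hF : BD (fun T : Finset κ => ((U.filter fun x => x ∈ T).card : ℝ)) := by
    intro j T
    have a1 : (U.filter fun x => x ∈ T).card ≤ (U.filter fun x => x ∈ insert j T).card :=
      card_le_card fun x => by simp only [mem_filter, mem_insert]; tauto
    have a2 : (U.filter fun x => x ∈ insert j T).card ≤ (U.filter fun x => x ∈ T).card + 1 :=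
      le_trans (card_le_card (fun x => by simp only [mem_filter, mem_insert]; tauto))
        (card_insert_le j _)
    have a1' : ((U.filter fun x => x ∈ T).card : ℝ) ≤ (U.filter fun x => x ∈ insert j T).card := by
      exact_mod_cast a1
    have a2' : ((U.filter fun x => x ∈ insert j T).card : ℝ)
        ≤ (U.filter fun x => x ∈ T).card + 1 := by exact_mod_cast a2
    rw [abs_le]; constructor <;> linarith
  have hE : ∀ W : Finset κ, E p W (fun T => (T.card : ℝ)) = p * W.card := by
    intro W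
    induction W using Finset.induction_on with
    | empty => simp
    | insert j W hj ih =>
      rw [E_insert p hj, ih, card_insert_of_notMem hj,
        E_congr p (g := fun T => (T.card : ℝ) + 1) (fun T hT => by
          rw [card_insert_of_notMem (fun h => hj (hT h))]; push_cast; ring), E_add, E_const, ih]
      push_cast; ring
  refine le_trans (Pr_mono h0 h1 fun T _ h => ?_) (tail h0 h1 hl hL hU _ hF t)
  have : cm p U (fun T : Finset κ => ((U.filter fun x => x ∈ T).card : ℝ)) T = p * U.card := by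
    rw [← hE]
    refine E_congr p fun T₂ hT₂ => ?_
    refine congrArg (fun W : Finset κ => (W.card : ℝ)) ?_
    ext x
    simp only [mem_filter, mem_union, mem_sdiff]
    constructor
    · rintro ⟨a, ⟨-, b⟩ | b⟩
      · exact absurd a b
      · exact b
    · intro a; exact ⟨hT₂ a, Or.inr a⟩
  rw [this]; linarith

end Pool.Agent.P.MP_985e29_pr.Hi
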