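import Pool.Agent.P.MP_985e29_pr.Hi.Chain
import Pool.Agent.P.MP_985e29_pr.Draw

/-! From independent sets to the game, and the final statement. -/

namespace Pool.Agent.P.MP_985e29_pr.Hi

open Finset Filter MeasureTheory ProbabilityTheory

variable {d : ℕ}

/-- independent subsets of `K` -/
def Ind (K I : Finset (Fin d → ℤ)) : Prop := I ⊆ K ∧ ∀ x ∈ I, ∀ y ∈ I, D x y ≠ 1

/-- `v` lies in every maximum independent subset of `K` -/
def Core (K : Finset (Fin d → ℤ)) (v : Fin d → ℤ) : Prop :=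
  ∀ I, Ind K I → (∀ J, Ind K J → J.card ≤ I.card) → v ∈ I

theorem exists_max_ind (K : Finset (Fin d → ℤ)) :
    ∃ I, Ind K I ∧ ∀ J, Ind K J → J.card ≤ I.card := by
  classical
  obtain ⟨I, hI, h⟩ := Finset.exists_max_image (K.powerset.filter (Ind K)) card
    ⟨∅, mem_filter.mpr ⟨by simp, by simp [Ind]⟩⟩
  exact ⟨I, (mem_filter.mp hI).2, fun J hJ => h J (mem_filter.mpr ⟨mem_powerset.mpr hJ.1, hJ⟩)⟩

theorem nu_le_sdiff {K I : Finset (Fin d → ℤ)} (hI : Ind K I) : nu (lat d) K ≤ (K \ I).card := by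
  obtain ⟨M, hM, hc⟩ := Pool.Agent.P.MP_985e29_pr.exists_max (G := lat d) K
  rw [← hc]
  refine Finset.card_le_card_of_injOn (fun q => if q.1 ∈ I then q.2 else q.1) ?_ ?_
  · intro q hq
    obtain ⟨a, b, c⟩ := hM.1 q hq
    simp only [coe_sdiff, Set.mem_sdiff, mem_coe]
    split_ifs with h
    · exact ⟨c, fun h' => hI.2 _ h _ h' (lat_adj.mp a)⟩
    · exact ⟨b, h⟩
  · intro q hq r hr h
    by_contra hne
    obtain ⟨a, b, c, f⟩ := hM.2 q hq r hr hne
    simp only at h
    split_ifs at h <;> contradiction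

theorem hall_part {K I B : Finset (Fin d → ℤ)} {v : Fin d → ℤ} (hK : Core K v) (hI : Ind K I)
    (hmax : ∀ J, Ind K J → J.card ≤ I.card) (hB : B ⊆ K \ I)
    (hind : ∀ x ∈ B, ∀ y ∈ B, D x y ≠ 1) :
    B.card ≤ ((I.erase v).filter fun y => ∃ x ∈ B, D x y = 1).card := by
  classical
  set NB := I.filter fun y => ∃ x ∈ B, D x y = 1 with hNB
  have hJ : Ind K ((I \ NB) ∪ B) := by
    refine ⟨union_subset (sdiff_subset.trans hI.1) (hB.trans sdiff_subset), ?_⟩
    have key : ∀ x ∈ B, ∀ y ∈ I \ NB, D x y ≠ 1 := fun x hx y hy h =>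
      (mem_sdiff.mp hy).2 (mem_filter.mpr ⟨(mem_sdiff.mp hy).1, x, hx, h⟩)
    intro x hx y hy
    rcases mem_union.mp hx with hx | hx <;> rcases mem_union.mp hy with hy | hy
    · exact hI.2 x (mem_sdiff.mp hx).1 y (mem_sdiff.mp hy).1
    · rw [D_comm]; exact key y hy x hx
    · exact key x hx y hy
    · exact hind x hx y hy
  have hc : ((I \ NB) ∪ B).card + NB.card = I.card + B.card := by
    rw [card_union_of_disjoint, add_right_comm, card_sdiff_add_card_eq_card (filter_subset _ _)]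
    rw [Finset.disjoint_left]
    intro x h1 h2
    exact (mem_sdiff.mp (hB h2)).2 (mem_sdiff.mp h1).1
  have h1 := hmax _ hJ
  rw [filter_erase, ← hNB]
  by_cases hv : v ∈ NB
  · have h2 : ((I \ NB) ∪ B).card < I.card := by
      by_contra hh
      have := hK _ hJ (fun J hJ' => (hmax J hJ').trans (not_lt.mp hh))
      rcases mem_union.mp this with h | h
      · exact (mem_sdiff.mp h).2 hv
      · exact (mem_sdiff.mp (hB h)).2 (mem_filter.mp hv).1
    have := card_erase_add_one hv
    omega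
  · rw [erase_eq_of_notMem hv]; omega

theorem Core.not_ess {K : Finset (Fin d → ℤ)} {v : Fin d → ℤ} (hK : Core K v) :
    ¬ ess (lat d) K v := by
  classical
  obtain ⟨I, hI, hmax⟩ := exists_max_ind K
  have hv := hK I hI hmax
  obtain ⟨f, hf1, hf2⟩ := (Finset.all_card_le_biUnion_card_iff_exists_injective
    (fun x : ↥(K \ I) => (I.erase v).filter fun y => D x.1 y = 1)).mp (by
      intro s
      set B := s.map (Function.Embedding.subtype _) with hB
      have hBs : B ⊆ K \ I := fun x hx => by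
        obtain ⟨y, -, rfl⟩ := mem_map.mp hx
        exact y.2
      have h1 := hall_part hK hI hmax (B := B.filter Ev) ((filter_subset _ _).trans hBs)
        (fun x hx y hy h => (Ev_of_D h).mp (mem_filter.mp hy).2 (mem_filter.mp hx).2)
      have h2 := hall_part hK hI hmax (B := B.filter fun x => ¬ Ev x)
        ((filter_subset _ _).trans hBs)
        (fun x hx y hy h => (mem_filter.mp hy).2 ((Ev_of_D h).mpr (mem_filter.mp hx).2))
      have h3 := Finset.card_filter_add_card_filter_not (s := B) Ev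
      have h4 : B.card = s.card := card_map _
      have h5 : ((I.erase v).filter fun y => ∃ x ∈ B.filter Ev, D x y = 1).card
          + ((I.erase v).filter fun y => ∃ x ∈ B.filter (fun x => ¬ Ev x), D x y = 1).card
          ≤ (s.biUnion fun x : ↥(K \ I) => (I.erase v).filter fun y => D x.1 y = 1).card := by
        rw [← card_union_of_disjoint]
        · refine card_le_card fun y hy => ?_
          have : y ∈ I.erase v ∧ ∃ x ∈ B, D x y = 1 := by
            rcases mem_union.mp hy with h | h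
            · obtain ⟨a, x, b, c⟩ := mem_filter.mp h
              exact ⟨a, x, (mem_filter.mp b).1, c⟩
            · obtain ⟨a, x, b, c⟩ := mem_filter.mp h
              exact ⟨a, x, (mem_filter.mp b).1, c⟩
          obtain ⟨a, x, b, c⟩ := this
          obtain ⟨z, hz, rfl⟩ := mem_map.mp b
          exact mem_biUnion.mpr ⟨z, hz, mem_filter.mpr ⟨a, c⟩⟩
        · rw [Finset.disjoint_left]
          intro y h h'
          obtain ⟨-, x, b, c⟩ := mem_filter.mp h
          obtain ⟨-, x', b', c'⟩ := mem_filter.mp h'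
          exact (Ev_of_D c).mp ((Ev_of_D c').mpr (mem_filter.mp b').2) (mem_filter.mp b).2
      omega)
  have hM : IsM (lat d) (K.erase v) (univ.image fun x : ↥(K \ I) => (x.1, f x)) := by
    constructor
    · intro q hq
      obtain ⟨x, -, rfl⟩ := mem_image.mp hq
      obtain ⟨a, b⟩ := mem_filter.mp (hf2 x)
      obtain ⟨c, g⟩ := mem_sdiff.mp x.2
      exact ⟨lat_adj.mpr b, mem_erase.mpr ⟨fun h => g (by rw [show x.1 = v from h]; exact hv), c⟩,
        mem_erase.mpr ⟨(mem_erase.mp a).1, hI.1 (mem_erase.mp a).2⟩⟩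
    · intro q hq r hr hne
      obtain ⟨x, -, rfl⟩ := mem_image.mp hq
      obtain ⟨y, -, rfl⟩ := mem_image.mp hr
      have hxy : x ≠ y := fun h => hne (by rw [h])
      have a := (mem_erase.mp (mem_filter.mp (hf2 x)).1).2
      have b := (mem_erase.mp (mem_filter.mp (hf2 y)).1).2
      refine ⟨fun h => hxy (Subtype.ext h), fun h => ?_, fun h => ?_, fun h => hxy (hf1 h)⟩
      · exact (mem_sdiff.mp x.2).2 (by rw [show x.1 = f y from h]; exact b)
      · exact (mem_sdiff.mp y.2).2 (by rw [← show f x = y.1 from h]; exact a)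
  have h1 := hM.card_le
  rw [card_image_of_injective _ (fun x y h => Subtype.ext (congrArg Prod.fst h)), card_univ,
    Fintype.card_coe] at h1
  have h2 := nu_le_sdiff hI
  unfold ess
  omega

theorem Core.ess_nbr {K : Finset (Fin d → ℤ)} {v u : Fin d → ℤ} (hK : Core K v) (hu : u ∈ K)
    (h : D u v = 1) : ess (lat d) K u := by
  obtain ⟨I, hI, hmax⟩ := exists_max_ind K
  have hv := hK I hI hmax
  have huI : u ∉ I := fun hu => hI.2 u hu v hv h
  have hne : v ≠ u := by rintro rfl; simp at h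
  refine (ess_iff hu).mpr ⟨v, mem_erase.mpr ⟨hne, hI.1 hv⟩, lat_adj.mpr h, Core.not_ess ?_⟩
  intro J hJ hJmax
  refine hK J ⟨hJ.1.trans (erase_subset _ _), hJ.2⟩ fun J' hJ' => (hmax J' hJ').trans ?_
  exact hJmax I ⟨fun x hx => mem_erase.mpr ⟨fun h => huI (h ▸ hx), hI.1 hx⟩, hI.2⟩

theorem core_of_not_bad {N : ℕ} (P : (Fin d → ℤ) → Prop) [DecidablePred P]
    (h : ¬ Bad N ((Lam d N).filter P)) : Core ((Lam d N).filter fun x => ¬ P x) 0 := by
  have key : ∀ I, Adm (Lam d N) ((Lam d N).filter P) I ↔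
      Ind ((Lam d N).filter fun x => ¬ P x) I := by
    intro I
    constructor
    · rintro ⟨a, b, c⟩
      exact ⟨fun x hx => mem_filter.mpr ⟨a hx, fun hP => b x hx (mem_filter.mpr ⟨a hx, hP⟩)⟩, c⟩
    · rintro ⟨a, c⟩
      exact ⟨a.trans (filter_subset _ _),
        fun x hx hc => (mem_filter.mp (a hx)).2 (mem_filter.mp hc).2, c⟩
  intro I hI hmax
  by_contra h0
  refine h ⟨I, (key I).mpr hI, le_antisymm ((key I).mpr hI).card_le ?_, h0⟩
  obtain ⟨J, hJ, hc⟩ := exists_max (Lam d N) ((Lam d N).filter P)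
  rw [← hc]; exact hmax J ((key J).mp hJ)

open Classical in
/-- the bad event seen from `v` -/
def BadAt (v : Fin d → ℤ) (N : ℕ) : Set (Set (Fin d → ℤ)) :=
  {X | Bad N ((Lam d N).filter fun x => x + v ∈ X)}

theorem eventually_mem_Lam (x : Fin d → ℤ) : ∀ᶠ N in atTop, x ∈ Lam d N := by
  filter_upwards [eventually_ge_atTop (∑ i, (x i).natAbs)] with N hN
  have : x ∈ Box d N := mem_Box.mpr fun i => by
    have := Finset.single_le_sum (f := fun i => (x i).natAbs) (fun _ _ => Nat.zero_le _)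
      (mem_univ i)
    omega
  exact mem_Lam.mpr ⟨Box_mono (by omega) this, Or.inr this⟩

attribute [local instance] latLocallyFinite

theorem draw_of_good (i : Fin d) {X : Set (Fin d → ℤ)} (h0 : 0 ∉ X)
    (h1 : ∃ᶠ N in atTop, X ∉ BadAt 0 N) (h2 : ∃ᶠ N in atTop, X ∉ BadAt (e i) N) :
    X ∈ drawEvent d := by
  classical
  set K : (Fin d → ℤ) → ℕ → Finset (Fin d → ℤ) :=
    fun v N => ((Lam d N).filter fun x => ¬ x + v ∈ X).image (shift v) with hK
  have hopen : ∀ v N, ∀ x ∈ K v N, x ∉ X := by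
    intro v N x hx
    obtain ⟨y, hy, rfl⟩ := mem_image.mp hx
    exact (mem_filter.mp hy).2
  have hGH : ∀ v N, ∀ a ∈ K v N, ∀ b ∈ K v N, (lat d).Adj a b → (openGraph d X).Adj a b :=
    fun v N a ha b hb h => openGraph_adj.mpr ⟨h, hopen v N a ha, hopen v N b hb⟩
  have hHG : ∀ a b, (openGraph d X).Adj a b → (lat d).Adj a b :=
    fun a b h => (openGraph_adj.mp h).1
  have hmem : ∀ v b, b ∉ X → ∀ᶠ N in atTop, b ∈ K v N := by
    intro v b hb
    filter_upwards [eventually_mem_Lam (b - v)] with N hN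
    exact mem_image.mpr ⟨b - v, mem_filter.mpr ⟨hN, by simpa using hb⟩, by simp [shift_apply]⟩
  refine ⟨h0, ?_, ?_⟩
  · have := frequently_iff_neBot.mp h1
    refine not_firstWins_of_not_ess (l := atTop ⊓ 𝓟 {N | X ∉ BadAt 0 N}) (hGH 0) hHG
      (fun a b hab => (hmem 0 b (openGraph_adj.mp hab).2.2).filter_mono inf_le_left)
      ((hmem 0 0 h0).filter_mono inf_le_left) ?_
    refine eventually_inf_principal.mpr (Eventually.of_forall fun N hN => ?_)
    have h3 := (core_of_not_bad (fun x => x + 0 ∈ X) hN).not_ess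
    rw [← ess_image (shift 0), shift_apply, add_zero] at h3
    exact h3
  · have := frequently_iff_neBot.mp h2
    refine not_secondWins_of_ess (l := atTop ⊓ 𝓟 {N | X ∉ BadAt (e i) N}) (hGH (e i)) hHG
      (fun a b hab => (hmem _ b (openGraph_adj.mp hab).2.2).filter_mono inf_le_left) ?_
    refine eventually_inf_principal.mpr ?_
    filter_upwards [eventually_mem_Lam (- e i)] with N hN1 hN
    have h3 := (core_of_not_bad (fun x => x + e i ∈ X) hN).ess_nbr (u := - e i)
      (mem_filter.mpr ⟨hN1, by simpa using h0⟩) (by simpa using D_add_e (- e i) i)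
    rw [← ess_image (shift (e i)), shift_apply, neg_add_cancel] at h3
    exact h3

theorem Ex_eq_E {κ : Type} [DecidableEq κ] (p : ℝ) (S : Finset κ) (f : Finset κ → ℝ) :
    Ex S (fun _ => p) f = E p S f := by
  refine Finset.sum_congr rfl fun C hC => ?_
  simp only [wt, prod_const, card_sdiff_of_subset (mem_powerset.mp hC)]

theorem meas_BadAt (p : unitInterval) (v : Fin d → ℤ) (N : ℕ) :
    setBer((Set.univ : Set (Fin d → ℤ)), p) (BadAt v N)
      ≤ ENNReal.ofReal (Pr p (Lam d N) (Bad N)) := by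
  classical
  rw [← Pr_relabel p (Lam d N) (fun x => x + v) (add_left_injective v).injOn
    ((Lam d N).image fun x => x + v) (fun x hx => mem_image_of_mem _ hx)]
  refine (setBer_le_Ex p ((Lam d N).image fun x => x + v)
    (fun C => Bad N ((Lam d N).filter fun x => x + v ∈ C)) _ fun X hX => ?_).trans_eq ?_
  · convert hX using 1
    simp only [BadAt, Set.mem_ofPred_eq]
    congr! 1
    ext x
    simp only [mem_filter, and_congr_right_iff, and_iff_right_iff_imp]
    exact fun hx _ => mem_image_of_mem _ hx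
  · rw [Ex_eq_E]; rfl

theorem meas_eventually {Ω : Type*} [MeasurableSpace Ω] (μ : Measure Ω) (B : ℕ → Set Ω)
    (c : ENNReal) (h : ∀ N, μ (B N) ≤ c) : μ {X | ∀ᶠ N in atTop, X ∈ B N} ≤ c := by
  have e1 : {X | ∀ᶠ N in atTop, X ∈ B N} = ⋃ M, {X | ∀ N ≥ M, X ∈ B N} := by
    ext X; simp
  have hm : Monotone fun M => {X | ∀ N ≥ M, X ∈ B N} :=
    fun M M' hM X hX N hN => hX N (hM.trans hN)
  rw [e1, hm.measure_iUnion]
  refine iSup_le fun M => le_trans (measure_mono ?_) (h M)
  exact fun X hX => hX M le_rfl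

theorem high (hd : 3 ≤ d) : ∃ p : unitInterval, 0 < p ∧
    0 < setBer((Set.univ : Set (Fin d → ℤ)), p) (drawEvent d) := by
  classical
  obtain ⟨p, hp0, hp1, hp⟩ := prob_bad hd
  let q : unitInterval := ⟨p, hp0.le, by linarith⟩
  refine ⟨q, hp0, ?_⟩
  set μ := setBer((Set.univ : Set (Fin d → ℤ)), q) with hμ
  let i : Fin d := ⟨0, by omega⟩
  have a1 : ∀ v, μ {X | ∀ᶠ N in atTop, X ∈ BadAt v N} ≤ ENNReal.ofReal (1 / 4) := fun v =>
    meas_eventually μ _ _ fun N => (meas_BadAt q v N).trans (ENNReal.ofReal_le_ofReal (hp N))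
  have a2 : μ {X | 0 ∈ X} ≤ ENNReal.ofReal (1 / 8) := by
    refine (setBer_le_Ex q {0} (fun C => 0 ∈ C) _ fun X hX => by simpa using hX).trans ?_
    refine ENNReal.ofReal_le_ofReal ?_
    rw [Ex_eq_E]
    exact (Pr_mem p (mem_singleton_self (0 : Fin d → ℤ))).trans_le hp1
  have a3 : (Set.univ : Set (Set (Fin d → ℤ))) ⊆ drawEvent d ∪ ({X | 0 ∈ X} ∪
      ({X | ∀ᶠ N in atTop, X ∈ BadAt 0 N} ∪ {X | ∀ᶠ N in atTop, X ∈ BadAt (e i) N})) := by
    intro X _
    by_contra hc
    simp only [Set.mem_union, Set.mem_ofPred_eq, not_or] at hc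
    exact hc.1 (draw_of_good i hc.2.1 (not_eventually.mp hc.2.2.1) (not_eventually.mp hc.2.2.2))
  have a4 := (measure_mono (μ := μ) a3).trans ((measure_union_le _ _).trans (add_le_add le_rfl
    ((measure_union_le _ _).trans (add_le_add a2 ((measure_union_le _ _).trans
      (add_le_add (a1 0) (a1 (e i))))))))
  rw [pos_iff_ne_zero]
  intro h0
  rw [h0, zero_add, measure_univ, ← ENNReal.ofReal_add (by norm_num) (by norm_num),
    ← ENNReal.ofReal_add (by norm_num) (by norm_num), ENNReal.one_le_ofReal] at a4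
  norm_num at a4

theorem main (d : ℕ) : MeasurableSet (drawEvent d) ∧
    ((∃ p : unitInterval, 0 < p ∧
      0 < ProbabilityTheory.setBernoulli (Set.univ : Set (Fin d → ℤ)) p (drawEvent d)) ↔ 3 ≤ d) := by
  refine ⟨measurableSet_drawEvent d, fun ⟨p, hp, h⟩ => ?_, high⟩
  by_contra hd
  exact h.ne' (low d (by omega) p hp)

end Pool.Agent.P.MP_985e29_pr.Hi
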