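import Pool.Agent.P.MP_985e29_pr.Hi.Tour

/-! Boundaries of finite subsets of `ℤ^d` and coarse graining by sampling. -/

namespace Pool.Agent.P.MP_985e29_pr.Hi

open Finset

variable {d : ℕ}

/-- unit vector -/
def e (i : Fin d) : Fin d → ℤ := Pi.single i 1

theorem e_apply (i j : Fin d) : e i j = if j = i then 1 else 0 := by
  simp [e, Pi.single_apply]

@[simp] theorem e_self (i : Fin d) : e i i = 1 := by simp [e]

theorem D_add_e (x : Fin d → ℤ) (i : Fin d) : D x (x + e i) = 1 := by
  simp only [D, Pi.add_apply, sub_add_cancel_left, abs_neg, e_apply]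
  rw [Finset.sum_eq_single i] <;> simp +contextual

theorem D_add_right (x y z : Fin d → ℤ) : D (x + z) (y + z) = D x y := by
  simp [D]

theorem D_eq_one {x y : Fin d → ℤ} (h : D x y = 1) : ∃ i, y = x + e i ∨ x = y + e i := by
  have h1 : ∃ i, |x i - y i| ≠ 0 := by
    by_contra hc
    push Not at hc
    simp [D, hc] at h
  obtain ⟨i, hi⟩ := h1
  have h2 : |x i - y i| + ∑ j ∈ univ.erase i, |x j - y j| = 1 := by
    rw [Finset.add_sum_erase _ (fun j => |x j - y j|) (mem_univ i)]; exact h
  have h3 : 0 ≤ ∑ j ∈ univ.erase i, |x j - y j| := Finset.sum_nonneg fun _ _ => abs_nonneg _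
  have h4 : 0 < |x i - y i| := lt_of_le_of_ne (abs_nonneg _) hi.symm
  have h5 : ∑ j ∈ univ.erase i, |x j - y j| = 0 := by omega
  have h6 : ∀ j, j ≠ i → x j = y j := fun j hj => by
    have := (Finset.sum_eq_zero_iff_of_nonneg (fun _ _ => abs_nonneg _)).mp h5 j (by simp [hj])
    exact sub_eq_zero.mp (abs_eq_zero.mp this)
  have h7 : |x i - y i| = 1 := by omega
  refine ⟨i, ?_⟩
  rcases (abs_eq (by norm_num)).mp h7 with h8 | h8
  · right; funext j
    by_cases hj : j = i
    · subst hj; simp; omega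
    · simp [e_apply, hj, h6 j hj]
  · left; funext j
    by_cases hj : j = i
    · subst hj; simp; omega
    · simp [e_apply, hj, h6 j hj]

/-- even vertices -/
def Ev (x : Fin d → ℤ) : Prop := Even (∑ i, x i)

theorem Ev_add_e (x : Fin d → ℤ) (i : Fin d) : Ev (x + e i) ↔ ¬ Ev x := by
  have : ∑ j, (x + e i) j = ∑ j, x j + 1 := by
    simp [Finset.sum_add_distrib, e_apply]
  unfold Ev
  rw [this, Int.even_add_one]

theorem Ev_of_D {x y : Fin d → ℤ} (h : D x y = 1) : Ev y ↔ ¬ Ev x := by
  obtain ⟨i, rfl | rfl⟩ := D_eq_one h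
  · exact Ev_add_e _ _
  · rw [Ev_add_e, not_not]

theorem Ev_zero : Ev (0 : Fin d → ℤ) := by simp [Ev]

/-- the box of radius `N` -/
noncomputable def Box (d N : ℕ) : Finset (Fin d → ℤ) := Fintype.piFinset fun _ => Icc (-(N : ℤ)) N

theorem mem_Box {N : ℕ} {x : Fin d → ℤ} : x ∈ Box d N ↔ ∀ i, -(N : ℤ) ≤ x i ∧ x i ≤ N := by
  simp [Box]

/-- base points of boundary edges in direction `i` -/
def bdir (A : Finset (Fin d → ℤ)) (i : Fin d) : Finset (Fin d → ℤ) :=
  (A ∪ A.image (fun x => x - e i)).filter fun x => ¬ (x ∈ A ↔ x + e i ∈ A)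

theorem mem_bdir {A : Finset (Fin d → ℤ)} {i : Fin d} {x : Fin d → ℤ} :
    x ∈ bdir A i ↔ ¬ (x ∈ A ↔ x + e i ∈ A) := by
  simp only [bdir, mem_filter, mem_union, mem_image, and_iff_right_iff_imp]
  intro h
  by_cases hx : x ∈ A
  · exact Or.inl hx
  · exact Or.inr ⟨x + e i, by tauto, by simp⟩

/-- number of boundary edges -/
def nb (A : Finset (Fin d → ℤ)) : ℕ := ∑ i, (bdir A i).card

/-- all base points of boundary edges -/
def K (A : Finset (Fin d → ℤ)) : Finset (Fin d → ℤ) := univ.biUnion (bdir A)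

theorem mem_K {A : Finset (Fin d → ℤ)} {x : Fin d → ℤ} : x ∈ K A ↔ ∃ i, x ∈ bdir A i := by
  simp [K]

theorem card_K_le (A : Finset (Fin d → ℤ)) : (K A).card ≤ nb A := card_biUnion_le

theorem bdir_subset_K (A : Finset (Fin d → ℤ)) (i : Fin d) : bdir A i ⊆ K A :=
  fun _ hx => mem_K.mpr ⟨i, hx⟩

theorem ray {β : Type*} (φ : (Fin d → ℤ) → β) (c : β) (i : Fin d) (R : ℤ)
    (h1 : ∀ x, φ (x + e i) = φ x) (h2 : ∀ x, x i < R → φ x = c) (x : Fin d → ℤ) : φ x = c := by
  have key : ∀ t : ℕ, ∀ x : Fin d → ℤ, x i < R + t → φ x = c := by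
    intro t
    induction t with
    | zero => intro x hx; exact h2 x (by simpa using hx)
    | succ t ih =>
      intro x hx
      rw [← sub_add_cancel x (e i), h1]
      apply ih
      simp only [Pi.sub_apply, e_self]
      push_cast at hx; linarith
  exact key (x i - R + 1).toNat x (by omega)

theorem exists_lt_bound (A : Finset (Fin d → ℤ)) (i : Fin d) : ∃ R : ℤ, ∀ x ∈ A, R ≤ x i := by
  obtain ⟨R, hR⟩ := (A.image fun x => x i).bddBelow
  exact ⟨R, fun x hx => hR (mem_coe.mpr (mem_image_of_mem _ hx))⟩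

theorem bdir_injective (i : Fin d) {A B : Finset (Fin d → ℤ)} (h : bdir A i = bdir B i) :
    A = B := by
  obtain ⟨R, hR⟩ := exists_lt_bound (A ∪ B) i
  ext x
  have := ray (fun x => (x ∈ A ↔ x ∈ B)) True i R (fun x => by
    have : x ∈ bdir A i ↔ x ∈ bdir B i := by rw [h]
    simp only [mem_bdir] at this
    apply propext; tauto) (fun x hx => by
    have h1 : x ∉ A := fun h => by have := hR x (mem_union_left _ h); omega
    have h2 : x ∉ B := fun h => by have := hR x (mem_union_right _ h); omega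
    simp [h1, h2]) x
  simpa using this

theorem eq_empty_of_nb (i : Fin d) {A : Finset (Fin d → ℤ)} (h : nb A = 0) : A = ∅ := by
  apply bdir_injective i
  have h1 : (bdir A i).card = 0 := Finset.sum_eq_zero_iff.mp h i (mem_univ i)
  rw [card_eq_zero.mp h1]
  simp [bdir]

/-! ### Sampling -/

/-- parent cell -/
def par (x : Fin d → ℤ) : Fin d → ℤ := fun i => x i / 2

/-- the cube `{0,1}^d` -/
def cube (d : ℕ) : Finset (Fin d → ℤ) := Fintype.piFinset fun _ => {0, 1}

theorem mem_cube {r : Fin d → ℤ} : r ∈ cube d ↔ ∀ i, r i = 0 ∨ r i = 1 := by simp [cube]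

theorem card_cube : (cube d).card = 2 ^ d := by simp [cube]

/-- the child of `c` with offset `r` -/
def child (c r : Fin d → ℤ) : Fin d → ℤ := fun i => 2 * c i + r i

theorem par_child (c : Fin d → ℤ) {r : Fin d → ℤ} (hr : r ∈ cube d) : par (child c r) = c := by
  funext i
  have := mem_cube.mp hr i
  simp only [par, child]; omega

theorem D_par (x y : Fin d → ℤ) : D (par x) (par y) ≤ D x y := by
  refine Finset.sum_le_sum fun i _ => ?_
  simp only [par]
  rw [abs_le]
  constructor <;> cases abs_cases (x i - y i) <;> omega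

theorem par_zero : par (0 : Fin d → ℤ) = 0 := by funext i; simp [par]

/-- the sampled set -/
def samp (A : Finset (Fin d → ℤ)) (r : Fin d → ℤ) : Finset (Fin d → ℤ) :=
  (A.image par).filter fun c => child c r ∈ A

theorem mem_samp {A : Finset (Fin d → ℤ)} {r c : Fin d → ℤ} (hr : r ∈ cube d) :
    c ∈ samp A r ↔ child c r ∈ A := by
  simp only [samp, mem_filter, mem_image, and_iff_right_iff_imp]
  exact fun h => ⟨_, h, par_child c hr⟩

theorem bdir_samp {A : Finset (Fin d → ℤ)} {r c : Fin d → ℤ} (hr : r ∈ cube d) {i : Fin d}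
    (h : c ∈ bdir (samp A r) i) : child c r ∈ bdir A i ∨ child c r + e i ∈ bdir A i := by
  have e1 : child (c + e i) r = child c r + e i + e i := by
    funext j; simp only [child, Pi.add_apply]; ring
  simp only [mem_bdir, mem_samp hr, e1] at h ⊢
  tauto

theorem sum_bdir_samp (A : Finset (Fin d → ℤ)) (i : Fin d) :
    ∑ r ∈ cube d, (bdir (samp A r) i).card ≤ 2 * (bdir A i).card := by
  rw [← Finset.card_sigma]
  have h1 : (bdir A i ∪ (bdir A i).image (fun x => x - e i)).card ≤ 2 * (bdir A i).card := by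
    refine (card_union_le _ _).trans ?_
    have := card_image_le (s := bdir A i) (f := fun x => x - e i)
    omega
  refine le_trans (Finset.card_le_card_of_injOn (fun q => child q.2 q.1) ?_ ?_) h1
  · rintro ⟨r, c⟩ hq
    simp only [coe_sigma, Set.mem_sigma_iff, mem_coe] at hq
    rcases bdir_samp hq.1 hq.2 with h | h
    · exact mem_coe.mpr (mem_union_left _ h)
    · exact mem_coe.mpr (mem_union_right _ (mem_image.mpr ⟨_, h, by simp⟩))
  · rintro ⟨r, c⟩ hq ⟨r', c'⟩ hq' h
    simp only [coe_sigma, Set.mem_sigma_iff, mem_coe] at hq hq'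
    have hc : c = c' := by
      rw [← par_child c hq.1, ← par_child c' hq'.1]; exact congrArg par h
    subst hc
    have hr : r = r' := by
      funext j
      have := congrFun h j
      simp only [child] at this; omega
    subst hr; rfl

theorem exists_samp (A : Finset (Fin d → ℤ)) :
    ∃ r ∈ cube d, 2 ^ d * nb (samp A r) ≤ 2 * nb A := by
  have h : ∑ r ∈ cube d, 2 ^ d * nb (samp A r) ≤ ∑ _r ∈ cube d, 2 * nb A := by
    rw [← Finset.mul_sum, Finset.sum_const, card_cube, smul_eq_mul]
    refine Nat.mul_le_mul_left _ ?_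
    unfold nb
    rw [Finset.sum_comm, Finset.mul_sum]
    exact Finset.sum_le_sum fun i _ => sum_bdir_samp A i
  exact Finset.exists_le_of_sum_le (card_pos.mp (by rw [card_cube]; positivity)) h

/-- one coarse-graining step -/
noncomputable def step (A : Finset (Fin d → ℤ)) : Finset (Fin d → ℤ) :=
  samp A (exists_samp A).choose

theorem step_spec (A : Finset (Fin d → ℤ)) :
    ∃ r ∈ cube d, step A = samp A r ∧ 2 ^ d * nb (step A) ≤ 2 * nb A :=
  ⟨_, (exists_samp A).choose_spec.1, rfl, (exists_samp A).choose_spec.2⟩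

theorem step_empty : step (∅ : Finset (Fin d → ℤ)) = ∅ := by simp [step, samp]

theorem step_subset_Box {N : ℕ} {A : Finset (Fin d → ℤ)} (h : A ⊆ Box d N) :
    step A ⊆ Box d N := by
  obtain ⟨r, hr, h1, -⟩ := step_spec A
  intro c hc
  rw [h1, mem_samp hr] at hc
  refine mem_Box.mpr fun i => ?_
  have := mem_Box.mp (h hc) i
  have h2 := mem_cube.mp hr i
  simp only [child] at this
  omega

theorem exists_child (x : Fin d → ℤ) : ∃ r ∈ cube d, x = child (par x) r :=
  ⟨fun i => x i % 2, mem_cube.mpr fun i => by omega, by funext i; simp only [child, par]; omega⟩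

theorem block_const {A : Finset (Fin d → ℤ)} {c : Fin d → ℤ} (h : ∀ y ∈ K A, par y ≠ c)
    {r : Fin d → ℤ} (hr : r ∈ cube d) : child c r ∈ A ↔ child c 0 ∈ A := by
  have key : ∀ J : Finset (Fin d),
      (child c (fun i => if i ∈ J then 1 else 0) ∈ A ↔ child c 0 ∈ A) := by
    intro J
    induction J using Finset.induction_on with
    | empty => simp only [notMem_empty, if_false]; rfl
    | insert j J hj ih =>
      have e1 : child c (fun i => if i ∈ insert j J then 1 else 0)
          = child c (fun i => if i ∈ J then 1 else 0) + e j := by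
        funext i
        simp only [child, Pi.add_apply, e_apply, mem_insert]
        by_cases hi : i = j
        · subst hi; simp [hj]
        · simp [hi]
      have h2 : child c (fun i => if i ∈ J then 1 else 0) ∉ bdir A j := fun hb =>
        h _ (bdir_subset_K A j hb) (par_child c (mem_cube.mpr fun i => by split_ifs <;> simp))
      rw [mem_bdir, not_not] at h2
      rw [e1, ← h2, ih]
  have : r = fun i => if i ∈ univ.filter (fun i => r i = 1) then 1 else 0 := by
    funext i
    rcases mem_cube.mp hr i with h | h <;> simp [h]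
  rw [this]; exact key _

theorem card_par_le (U Z : Finset (Fin d → ℤ)) :
    (U.filter fun x => par x ∈ Z).card ≤ 2 ^ d * Z.card := by
  have : (U.filter fun x => par x ∈ Z) ⊆ (cube d ×ˢ Z).image fun q => child q.2 q.1 := by
    intro x hx
    obtain ⟨r, hr, h⟩ := exists_child x
    exact mem_image.mpr ⟨(r, par x), mem_product.mpr ⟨hr, (mem_filter.mp hx).2⟩, h.symm⟩
  refine (card_le_card this).trans (card_image_le.trans ?_)
  rw [card_product, card_cube]

theorem card_par_iter_le (k : ℕ) (U Z : Finset (Fin d → ℤ)) :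
    (U.filter fun x => par^[k] x ∈ Z).card ≤ (2 ^ d) ^ k * Z.card := by
  induction k generalizing U with
  | zero => simpa using card_le_card fun x hx => (mem_filter.mp hx).2
  | succ k ih =>
    have h1 : (U.filter fun x => par^[k + 1] x ∈ Z)
        ⊆ U.filter fun x => par x ∈ (U.image par).filter fun y => par^[k] y ∈ Z := by
      intro x hx
      obtain ⟨h1, h2⟩ := mem_filter.mp hx
      exact mem_filter.mpr ⟨h1, mem_filter.mpr ⟨mem_image_of_mem _ h1, h2⟩⟩
    refine (card_le_card h1).trans ((card_par_le _ _).trans ?_)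
    rw [pow_succ', mul_assoc]
    exact Nat.mul_le_mul_left _ (ih _)

theorem card_step_diff (A U : Finset (Fin d → ℤ)) :
    (U.filter fun x => ¬ (x ∈ A ↔ par x ∈ step A)).card ≤ 2 ^ d * nb A := by
  obtain ⟨r, hr, h1, -⟩ := step_spec A
  have : (U.filter fun x => ¬ (x ∈ A ↔ par x ∈ step A))
      ⊆ U.filter fun x => par x ∈ (K A).image par := by
    intro x hx
    obtain ⟨h2, h3⟩ := mem_filter.mp hx
    refine mem_filter.mpr ⟨h2, ?_⟩
    by_contra hc
    have h4 : ∀ y ∈ K A, par y ≠ par x := fun y hy he => hc (mem_image.mpr ⟨y, hy, he⟩)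
    obtain ⟨s, hs, h5⟩ := exists_child x
    apply h3
    rw [h1, mem_samp hr, block_const h4 hr, ← block_const h4 hs, ← h5]
  refine (card_le_card this).trans ((card_par_le _ _).trans ?_)
  exact Nat.mul_le_mul_left _ (card_image_le.trans (card_K_le A))

theorem card_level_diff (k : ℕ) (A U : Finset (Fin d → ℤ)) :
    (U.filter fun x => ¬ (par^[k] x ∈ A ↔ par^[k + 1] x ∈ step A)).card
      ≤ (2 ^ d) ^ k * (2 ^ d * nb A) := by
  have : (U.filter fun x => ¬ (par^[k] x ∈ A ↔ par^[k + 1] x ∈ step A))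
      ⊆ U.filter fun x => par^[k] x ∈
        (U.image par^[k]).filter fun y => ¬ (y ∈ A ↔ par y ∈ step A) := by
    intro x hx
    obtain ⟨h1, h2⟩ := mem_filter.mp hx
    rw [Function.iterate_succ_apply'] at h2
    exact mem_filter.mpr ⟨h1, mem_filter.mpr ⟨mem_image_of_mem _ h1, h2⟩⟩
  exact (card_le_card this).trans ((card_par_iter_le k _ _).trans
    (Nat.mul_le_mul_left _ (card_step_diff A _)))

/-- every boundary base point of `A` is close to a point of `Y` -/
def Near (Y A : Finset (Fin d → ℤ)) : Prop :=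
  ∀ c ∈ K A, ∃ y ∈ Y, ∀ i, y i - 1 ≤ c i ∧ c i ≤ y i

theorem Near.step {Y A : Finset (Fin d → ℤ)} (h : Near Y A) : Near (Y.image par) (step A) := by
  obtain ⟨r, hr, h1, -⟩ := step_spec A
  intro c hc
  obtain ⟨i, hi⟩ := mem_K.mp hc
  rw [h1] at hi
  rcases bdir_samp hr hi with h2 | h2
  · obtain ⟨y, hy, h3⟩ := h _ (bdir_subset_K A i h2)
    refine ⟨par y, mem_image_of_mem _ hy, fun j => ?_⟩
    have := h3 j
    have h4 := mem_cube.mp hr j
    simp only [child, par] at this ⊢
    omega
  · obtain ⟨y, hy, h3⟩ := h _ (bdir_subset_K A i h2)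
    refine ⟨par y, mem_image_of_mem _ hy, fun j => ?_⟩
    have := h3 j
    have h4 := mem_cube.mp hr j
    simp only [child, par, Pi.add_apply, e_apply] at this ⊢
    split_ifs at this <;> omega

theorem near_iter (A : Finset (Fin d → ℤ)) (k : ℕ) :
    Near ((K A).image par^[k]) (step^[k] A) := by
  induction k with
  | zero => intro c hc; exact ⟨c, by simpa using hc, fun i => by omega⟩
  | succ k ih =>
    have := ih.step
    rw [Finset.image_image, ← Function.iterate_succ' par k] at this
    rwa [Function.iterate_succ_apply']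

theorem nb_iter (hd : 1 ≤ d) (A : Finset (Fin d → ℤ)) (k : ℕ) :
    (2 ^ (d - 1)) ^ k * nb (step^[k] A) ≤ nb A := by
  induction k with
  | zero => simp
  | succ k ih =>
    obtain ⟨-, -, -, h⟩ := step_spec (step^[k] A)
    rw [Function.iterate_succ_apply', pow_succ, mul_assoc]
    refine le_trans (Nat.mul_le_mul_left _ ?_) ih
    have : 2 ^ d = 2 * 2 ^ (d - 1) := by rw [← pow_succ']; congr 1; omega
    rw [this, mul_assoc] at h
    omega

theorem iter_subset_Box {N : ℕ} {A : Finset (Fin d → ℤ)} (h : A ⊆ Box d N) (k : ℕ) :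
    step^[k] A ⊆ Box d N := by
  induction k with
  | zero => exact h
  | succ k ih => rw [Function.iterate_succ_apply']; exact step_subset_Box ih

theorem tour_iter (hd : 1 ≤ d) {A : Finset (Fin d → ℤ)} {L : ℤ} (h : Tour 0 (K A) L) (k : ℕ) :
    Tour 0 (K (step^[k] A)) (L + 2 * d * nb A) := by
  have h1 : Tour 0 ((K A).image par^[k]) L := by
    induction k with
    | zero => simpa using h
    | succ k ih =>
      have := ih.image par D_par
      rwa [par_zero, Finset.image_image, ← Function.iterate_succ' par k] at this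
  have h2 := h1.near (r := d) (K (step^[k] A)) (fun c hc => by
    obtain ⟨y, hy, h3⟩ := near_iter A k c hc
    refine ⟨y, hy, ?_⟩
    have : D y c ≤ ∑ _i : Fin d, (1 : ℤ) := Finset.sum_le_sum fun i _ => by
      have := h3 i
      rw [abs_le]; omega
    simpa using this)
  refine h2.mono subset_union_right ?_
  have h3 : (K (step^[k] A)).card ≤ nb A := by
    have := nb_iter hd A k
    have h4 : 1 ≤ (2 ^ (d - 1)) ^ k := Nat.one_le_iff_ne_zero.mpr (by positivity)
    have h5 := card_K_le (step^[k] A)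
    nlinarith
  have h4 : ((K (step^[k] A)).card : ℤ) ≤ nb A := by exact_mod_cast h3
  have h5 : (0 : ℤ) ≤ 2 * d := by positivity
  nlinarith

end Pool.Agent.P.MP_985e29_pr.Hi
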