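import Pool.Agent.P.MP_985e29_pr.Hi.Contour
import Pool.Agent.P.MP_985e29_pr.Hi.Ex

/-! Maximum independent sets with even boundary condition and the shift of the disorder. -/

namespace Pool.Agent.P.MP_985e29_pr.Hi

open Finset

variable {d : ℕ}

open Classical in
/-- the region with even boundary condition -/
noncomputable def Lam (d N : ℕ) : Finset (Fin d → ℤ) :=
  (Box d (N + 1)).filter fun x => Ev x ∨ x ∈ Box d N

theorem mem_Lam {N : ℕ} {x : Fin d → ℤ} :
    x ∈ Lam d N ↔ x ∈ Box d (N + 1) ∧ (Ev x ∨ x ∈ Box d N) := by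
  simp [Lam]

/-- independent subsets of `Λ` avoiding the closed set `C` -/
def Adm (Λ C I : Finset (Fin d → ℤ)) : Prop :=
  I ⊆ Λ ∧ (∀ x ∈ I, x ∉ C) ∧ ∀ x ∈ I, ∀ y ∈ I, D x y ≠ 1

open Classical in
/-- maximal size of an admissible set -/
noncomputable def al (Λ C : Finset (Fin d → ℤ)) : ℕ := (Λ.powerset.filter (Adm Λ C)).sup card

theorem Adm.card_le {Λ C I : Finset (Fin d → ℤ)} (h : Adm Λ C I) : I.card ≤ al Λ C := by
  classical
  exact Finset.le_sup (f := card) (mem_filter.mpr ⟨mem_powerset.mpr h.1, h⟩)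

theorem exists_max (Λ C : Finset (Fin d → ℤ)) : ∃ I, Adm Λ C I ∧ I.card = al Λ C := by
  classical
  obtain ⟨I, hI, h⟩ := Finset.exists_mem_eq_sup (Λ.powerset.filter (Adm Λ C))
    ⟨∅, mem_filter.mpr ⟨by simp, by simp [Adm]⟩⟩ card
  exact ⟨I, (mem_filter.mp hI).2, h.symm⟩

theorem BD_al (Λ : Finset (Fin d → ℤ)) : BD (fun C => (al Λ C : ℝ)) := by
  intro j C
  have h1 : al Λ (insert j C) ≤ al Λ C := by
    obtain ⟨I, hI, h⟩ := exists_max Λ (insert j C)
    rw [← h]
    exact Adm.card_le ⟨hI.1, fun x hx hc => hI.2.1 x hx (mem_insert_of_mem hc), hI.2.2⟩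
  have h2 : al Λ C ≤ al Λ (insert j C) + 1 := by
    obtain ⟨I, hI, h⟩ := exists_max Λ C
    rw [← h]
    have : Adm Λ (insert j C) (I.erase j) :=
      ⟨(erase_subset _ _).trans hI.1, fun x hx hc => by
        rcases mem_insert.mp hc with h | h
        · exact (mem_erase.mp hx).1 h
        · exact hI.2.1 x (mem_erase.mp hx).2 h,
       fun x hx y hy => hI.2.2 x (mem_erase.mp hx).2 y (mem_erase.mp hy).2⟩
    have h3 := this.card_le
    have h4 := pred_card_le_card_erase (s := I) (a := j)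
    omega
  have h1' : (al Λ (insert j C) : ℝ) ≤ al Λ C := by exact_mod_cast h1
  have h2' : (al Λ C : ℝ) ≤ al Λ (insert j C) + 1 := by exact_mod_cast h2
  simp only
  rw [abs_le]; constructor <;> linarith

/-- some maximum independent set misses the origin -/
def Bad (N : ℕ) (C : Finset (Fin d → ℤ)) : Prop :=
  ∃ I, Adm (Lam d N) C I ∧ I.card = al (Lam d N) C ∧ 0 ∉ I

theorem nbr_mem_Box {N : ℕ} {x y : Fin d → ℤ} (hx : x ∈ Box d N) (h : D x y = 1) :
    y ∈ Box d (N + 1) := by
  refine mem_Box.mpr fun j => ?_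
  have h1 := mem_Box.mp hx j
  have h2 : |x j - y j| ≤ D x y :=
    Finset.single_le_sum (f := fun i => |x i - y i|) (fun _ _ => abs_nonneg _) (mem_univ j)
  rw [h, abs_le] at h2
  push_cast; omega

theorem zero_mem_Box (N : ℕ) : (0 : Fin d → ℤ) ∈ Box d N := by simp [mem_Box]

theorem first_contour {N : ℕ} {C I : Finset (Fin d → ℤ)} (hI : Adm (Lam d N) C I)
    (hc : I.card = al (Lam d N) C) (h0 : 0 ∉ I) (hC : 0 ∉ C) :
    ∃ A ⊆ Box d (N + 1), 0 ∈ A ∧ Good I A := by
  classical
  refine ⟨(Box d (N + 1)).filter fun x => (x ∈ I ∧ ¬ Ev x) ∨ ∃ y ∈ I, ¬ Ev y ∧ D x y = 1,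
    filter_subset _ _, mem_filter.mpr ⟨zero_mem_Box _, Or.inr ?_⟩, ?_⟩
  · by_contra hn
    have : Adm (Lam d N) C (insert 0 I) := by
      refine ⟨insert_subset (mem_Lam.mpr ⟨zero_mem_Box _, Or.inl Ev_zero⟩) hI.1, ?_, ?_⟩
      · intro x hx
        rcases mem_insert.mp hx with rfl | hx
        · exact hC
        · exact hI.2.1 x hx
      · have key : ∀ y ∈ I, D 0 y ≠ 1 := fun y hy h =>
          hn ⟨y, hy, fun hE => (Ev_of_D h).mp hE Ev_zero, h⟩
        intro x hx y hy
        rcases mem_insert.mp hx with rfl | hx <;> rcases mem_insert.mp hy with rfl | hy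
        · simp
        · exact key y hy
        · rw [D_comm]; exact key x hx
        · exact hI.2.2 x hx y hy
    have h1 := this.card_le
    rw [card_insert_of_notMem h0] at h1
    omega
  · intro u hu w hw hD
    obtain ⟨hu1, hu2⟩ := mem_filter.mp hu
    have hE : Ev u := by
      by_contra hE
      rcases hu2 with ⟨h1, -⟩ | ⟨y, -, h2, h3⟩
      · have h4 : u ∈ Box d N := (mem_Lam.mp (hI.1 h1)).2.resolve_left hE
        exact hw (mem_filter.mpr ⟨nbr_mem_Box h4 hD, Or.inr ⟨u, h1, hE, by rwa [D_comm]⟩⟩)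
      · exact h2 ((Ev_of_D h3).mpr hE)
    refine ⟨hE, fun huI => ?_, fun hwI => ?_⟩
    · rcases hu2 with ⟨-, h1⟩ | ⟨y, h1, -, h3⟩
      · exact h1 hE
      · exact hI.2.2 u huI y h1 h3
    · exact hw (mem_filter.mpr ⟨(mem_Lam.mp (hI.1 hwI)).1,
        Or.inl ⟨hwI, fun h => (Ev_of_D hD).mp h hE⟩⟩)

/-- entry points of `A` in direction `v` -/
def ent (A : Finset (Fin d → ℤ)) (v : Fin d → ℤ) : Finset (Fin d → ℤ) :=
  A.filter fun u => u - v ∉ A

open Classical in
theorem card_ent {I A : Finset (Fin d → ℤ)} (hG : Good I A) {v : Fin d → ℤ}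
    (hv : ∀ x, D x (x + v) = 1) :
    (ent A v).card + (A.filter fun x => ¬ Ev x).card = (A.filter Ev).card := by
  rw [← card_image_of_injective (A.filter fun x => ¬ Ev x) (add_left_injective v),
    ← card_union_of_disjoint]
  · congr 1
    ext u
    simp only [ent, mem_union, mem_filter, mem_image]
    have hu : D (u - v) u = 1 := by simpa using hv (u - v)
    constructor
    · rintro (⟨h1, h2⟩ | ⟨x, ⟨h1, h2⟩, rfl⟩)
      · exact ⟨h1, (hG u h1 _ h2 (by rwa [D_comm])).1⟩
      · refine ⟨?_, (Ev_of_D (hv x)).mpr h2⟩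
        by_contra hc
        exact h2 (hG x h1 _ hc (hv x)).1
    · rintro ⟨h1, h2⟩
      by_cases h : u - v ∈ A
      · exact Or.inr ⟨u - v, ⟨h, (Ev_of_D hu).mp h2⟩, by simp⟩
      · exact Or.inl ⟨h1, h⟩
  · rw [Finset.disjoint_left]
    intro u h1 h2
    obtain ⟨x, hx, rfl⟩ := mem_image.mp h2
    exact (mem_filter.mp h1).2 (by simpa using (mem_filter.mp hx).1)

theorem nb_le_ent {I A : Finset (Fin d → ℤ)} (hG : Good I A) (i0 : Fin d) :
    nb A ≤ 2 * d * (ent A (e i0)).card := by
  have h : ∀ i, (bdir A i).card ≤ 2 * (ent A (e i0)).card := by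
    intro i
    have h0 := card_ent hG (v := e i0) (fun x => D_add_e x i0)
    have h1 := card_ent hG (v := e i) (fun x => D_add_e x i)
    have h2 := card_ent hG (v := - e i) (fun x => by
      have := D_add_e (x + - e i) i
      rw [D_comm]; simpa using this)
    have h3 : bdir A i ⊆ ent A (- e i) ∪ (ent A (e i)).image (fun x => x - e i) := by
      intro x hx
      rw [mem_bdir] at hx
      by_cases hA : x ∈ A
      · exact mem_union_left _ (mem_filter.mpr ⟨hA, by simp only [sub_neg_eq_add]; tauto⟩)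
      · exact mem_union_right _ (mem_image.mpr
          ⟨x + e i, mem_filter.mpr ⟨by tauto, by simpa using hA⟩, by simp⟩)
    have h4 := (card_le_card h3).trans (card_union_le _ _)
    have h5 := card_image_le (s := ent A (e i)) (f := fun x => x - e i)
    omega
  calc nb A ≤ ∑ _i : Fin d, 2 * (ent A (e i0)).card := Finset.sum_le_sum fun i _ => h i
    _ = _ := by simp; ring

open Classical in
/-- the relabelling that shifts the disorder inside `B` in direction `v` -/
noncomputable def sh (v : Fin d → ℤ) (B : (Fin d → ℤ) → Prop) (x : Fin d → ℤ) :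
    (Fin d → ℤ) ⊕ (Fin d → ℤ) :=
  if B x then (if B (x - v) then Sum.inl (x - v) else Sum.inr x) else Sum.inl x

theorem sh_injective (v : Fin d → ℤ) (B : (Fin d → ℤ) → Prop) : Function.Injective (sh v B) := by
  intro x y h
  unfold sh at h
  by_cases a : B x <;> by_cases b : B (x - v) <;> by_cases c : B y <;> by_cases f : B (y - v) <;>
    simp only [a, b, c, f, if_true, if_false, Sum.inl.injEq, Sum.inr.injEq, reduceCtorEq] at h <;>
    first
      | exact h
      | exact sub_left_injective h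
      | exact absurd (h ▸ b) c
      | exact absurd (h ▸ f) a

/-- the variables -/
noncomputable def Var (d N : ℕ) : Finset ((Fin d → ℤ) ⊕ (Fin d → ℤ)) :=
  (Box d (N + 2)).disjSum (Box d (N + 2))

theorem Box_mono {N M : ℕ} (h : N ≤ M) : Box d N ⊆ Box d M := fun x hx =>
  mem_Box.mpr fun i => by have := mem_Box.mp hx i; omega

theorem sh_mem_Var {N : ℕ} (i : Fin d) (B : (Fin d → ℤ) → Prop) {x : Fin d → ℤ}
    (hx : x ∈ Lam d N) : sh (e i) B x ∈ Var d N := by
  have h1 := (mem_Lam.mp hx).1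
  have h2 : x ∈ Box d (N + 2) := Box_mono (by omega) h1
  have h3 : x - e i ∈ Box d (N + 2) := nbr_mem_Box h1 (by
    rw [D_comm]; simpa using D_add_e (x - e i) i)
  unfold sh Var
  split_ifs <;> simp [h2, h3]

theorem card_sh_ne (v : Fin d → ℤ) (B B' : (Fin d → ℤ) → Prop) (M : ℕ)
    (h : ∀ (U : Finset (Fin d → ℤ)) [DecidablePred fun x => ¬ (B x ↔ B' x)],
      (U.filter fun x => ¬ (B x ↔ B' x)).card ≤ M) (Λ : Finset (Fin d → ℤ)) :
    (Λ.filter fun x => sh v B x ≠ sh v B' x).card ≤ 2 * M := by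
  classical
  have h1 : (Λ.filter fun x => sh v B x ≠ sh v B' x) ⊆ (Λ.filter fun x => ¬ (B x ↔ B' x)) ∪
      ((Λ.image fun x => x - v).filter fun x => ¬ (B x ↔ B' x)).image fun x => x + v := by
    intro x hx
    obtain ⟨a, b⟩ := mem_filter.mp hx
    by_cases c1 : B x ↔ B' x
    · refine mem_union_right _ (mem_image.mpr ⟨x - v, mem_filter.mpr
        ⟨mem_image_of_mem _ a, fun c2 => b ?_⟩, by simp⟩)
      simp only [sh, c1, c2]
    · exact mem_union_left _ (mem_filter.mpr ⟨a, c1⟩)
  have h2 := (card_le_card h1).trans (card_union_le _ _)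
  have h3 := card_image_le (s := (Λ.image fun x => x - v).filter fun x => ¬ (B x ↔ B' x))
    (f := fun x => x + v)
  have h4 := h Λ
  have h5 := h (Λ.image fun x => x - v)
  omega

/-- closed sites of the region read through the relabelling `φ` -/
noncomputable def cfg (N : ℕ) (φ : (Fin d → ℤ) → (Fin d → ℤ) ⊕ (Fin d → ℤ))
    (T : Finset ((Fin d → ℤ) ⊕ (Fin d → ℤ))) : Finset (Fin d → ℤ) :=
  (Lam d N).filter fun x => φ x ∈ T

theorem shift_gain {N : ℕ} {I A : Finset (Fin d → ℤ)} (i0 : Fin d)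
    {T : Finset ((Fin d → ℤ) ⊕ (Fin d → ℤ))} (hI : Adm (Lam d N) (cfg N Sum.inl T) I)
    (hA : A ⊆ Box d (N + 1)) (hG : Good I A) :
    I.card + ((ent A (e i0)).filter fun u => Sum.inr u ∉ T).card
      ≤ al (Lam d N) (cfg N (sh (e i0) (· ∈ A)) T) := by
  classical
  set v := e i0 with hv
  have hvD : ∀ x, D x (x + v) = 1 := fun x => D_add_e x i0
  set I1 := I.filter fun x => x ∉ A
  set I2 := (I.filter fun x => x ∈ A).image fun x => x + v
  set I3 := (ent A v).filter fun u => Sum.inr u ∉ T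
  have m1 : ∀ x ∈ I1, x ∈ I ∧ x ∉ A := fun x hx => mem_filter.mp hx
  have m2 : ∀ x ∈ I2, x - v ∈ I ∧ x - v ∈ A ∧ x ∈ A := by
    intro x hx
    obtain ⟨y, hy, rfl⟩ := mem_image.mp hx
    obtain ⟨a, b⟩ := mem_filter.mp hy
    refine ⟨by simpa using a, by simpa using b, ?_⟩
    by_contra hc
    exact (hG y b _ hc (hvD y)).2.1 a
  have m3 : ∀ x ∈ I3, x ∈ A ∧ x - v ∉ A ∧ Sum.inr x ∉ T ∧ Ev x := by
    intro x hx
    obtain ⟨a, b⟩ := mem_filter.mp hx
    obtain ⟨c, f⟩ := mem_filter.mp a
    exact ⟨c, f, b, (hG x c _ f (by rw [D_comm]; simpa using hvD (x - v))).1⟩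
  have hAL : ∀ x ∈ A, x ∈ Lam d N := by
    intro x hx
    refine mem_Lam.mpr ⟨hA hx, ?_⟩
    by_cases hE : Ev x
    · exact Or.inl hE
    · refine Or.inr (mem_Box.mpr fun j => ?_)
      have a1 : x + e j ∈ A := by
        by_contra hc; exact hE (hG x hx _ hc (D_add_e x j)).1
      have a2 : x - e j ∈ A := by
        by_contra hc
        exact hE (hG x hx _ hc (by rw [D_comm]; simpa using D_add_e (x - e j) j)).1
      have b1 := mem_Box.mp (hA a1) j
      have b2 := mem_Box.mp (hA a2) j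
      simp only [Pi.add_apply, Pi.sub_apply, e_self] at b1 b2
      push_cast at b1 b2; omega
  have hopen : ∀ x ∈ I, Sum.inl x ∉ T := fun x hx h =>
    hI.2.1 x hx (mem_filter.mpr ⟨hI.1 hx, h⟩)
  have hDs : ∀ x y, D (x - v) (y - v) = D x y := fun x y => by
    simpa using (D_add_right (x - v) (y - v) v).symm
  have hadm : Adm (Lam d N) (cfg N (sh v (· ∈ A)) T) (I1 ∪ (I2 ∪ I3)) := by
    refine ⟨fun x hx => ?_, fun x hx hc => ?_, ?_⟩
    · rcases mem_union.mp hx with h | h
      · exact hI.1 (m1 x h).1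
      · rcases mem_union.mp h with h | h
        · exact hAL x (m2 x h).2.2
        · exact hAL x (m3 x h).1
    · have hc' := (mem_filter.mp hc).2
      rcases mem_union.mp hx with h | h
      · simp only [sh, (m1 x h).2, if_false] at hc'
        exact hopen x (m1 x h).1 hc'
      · rcases mem_union.mp h with h | h
        · simp only [sh, (m2 x h).2.2, (m2 x h).2.1, if_true] at hc'
          exact hopen _ (m2 x h).1 hc'
        · simp only [sh, (m3 x h).1, (m3 x h).2.1, if_true, if_false] at hc'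
          exact (m3 x h).2.2.1 hc'
    · have k1 : ∀ x ∈ I1, ∀ y ∈ A, D y x ≠ 1 := fun x hx y hy h =>
        (hG y hy x (m1 x hx).2 h).2.2 (m1 x hx).1
      have k2 : ∀ x ∈ I2, ∀ y ∈ I3, D x y ≠ 1 := fun x hx y hy h =>
        (hG _ (m2 x hx).2.1 _ (m3 y hy).2.1 (by rw [hDs]; exact h)).2.1 (m2 x hx).1
      have k3 : ∀ x ∈ I2 ∪ I3, x ∈ A := fun x hx => by
        rcases mem_union.mp hx with h | h
        · exact (m2 x h).2.2
        · exact (m3 x h).1
      intro x hx y hy
      rcases mem_union.mp hx with hx | hx <;> rcases mem_union.mp hy with hy | hy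
      · exact hI.2.2 x (m1 x hx).1 y (m1 y hy).1
      · rw [D_comm]; exact k1 x hx y (k3 y hy)
      · exact k1 y hy x (k3 x hx)
      · rcases mem_union.mp hx with hx | hx <;> rcases mem_union.mp hy with hy | hy
        · rw [← hDs]; exact hI.2.2 _ (m2 x hx).1 _ (m2 y hy).1
        · exact k2 x hx y hy
        · rw [D_comm]; exact k2 y hy x hx
        · intro h; exact (Ev_of_D h).mp (m3 y hy).2.2.2 (m3 x hx).2.2.2
  have hcard := hadm.card_le
  rw [card_union_of_disjoint, card_union_of_disjoint,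
    card_image_of_injective _ (add_left_injective v)] at hcard
  · have := Finset.card_filter_add_card_filter_not (s := I) (fun x => x ∈ A)
    simp only [I1] at hcard
    omega
  · rw [Finset.disjoint_left]
    intro x h2 h3
    exact (m3 x h3).2.1 (m2 x h2).2.1
  · rw [Finset.disjoint_left]
    intro x h1 h2
    rcases mem_union.mp h2 with h | h
    · exact (m1 x h1).2 (m2 x h).2.2
    · exact (m1 x h1).2 (m3 x h).1

end Pool.Agent.P.MP_985e29_pr.Hi
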