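import Mathlib

/-! Tours through finite subsets of `ℤ^d` and the number of small sets with a short tour. -/

namespace Pool.Agent.P.MP_985e29_pr.Hi

open Finset

variable {d : ℕ}

/-- `ℓ¹` distance -/
def D (x y : Fin d → ℤ) : ℤ := ∑ i, |x i - y i|

theorem D_nonneg (x y : Fin d → ℤ) : 0 ≤ D x y := Finset.sum_nonneg fun _ _ => abs_nonneg _

@[simp] theorem D_self (x : Fin d → ℤ) : D x x = 0 := by simp [D]

theorem D_comm (x y : Fin d → ℤ) : D x y = D y x := by simp only [D, abs_sub_comm]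

theorem D_triangle (x y z : Fin d → ℤ) : D x z ≤ D x y + D y z := by
  simp only [D, ← Finset.sum_add_distrib]
  exact Finset.sum_le_sum fun i _ => abs_sub_le _ _ _

/-- length of the path from `a` through the points of a list -/
def len : (Fin d → ℤ) → List (Fin d → ℤ) → ℤ
  | _, [] => 0
  | a, b :: l => D a b + len b l

theorem len_nonneg (a : Fin d → ℤ) (l : List (Fin d → ℤ)) : 0 ≤ len a l := by
  induction l generalizing a with
  | nil => simp [len]
  | cons b l ih => exact add_nonneg (D_nonneg _ _) (ih b)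

theorem len_start (a b : Fin d → ℤ) (l : List (Fin d → ℤ)) : len a l ≤ D a b + len b l := by
  cases l with
  | nil => simpa [len] using D_nonneg a b
  | cons c l => simp only [len]; linarith [D_triangle a b c]

theorem len_sublist {l' l : List (Fin d → ℤ)} (h : l'.Sublist l) (a : Fin d → ℤ) :
    len a l' ≤ len a l := by
  induction h generalizing a with
  | slnil => exact le_rfl
  | cons b _ ih => exact (len_start a b _).trans (by simp only [len]; linarith [ih b])
  | cons_cons b _ ih => simp only [len]; linarith [ih b]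

theorem D_le_len {l : List (Fin d → ℤ)} {x : Fin d → ℤ} (h : x ∈ l) (a : Fin d → ℤ) :
    D a x ≤ len a l := by
  simpa [len] using len_sublist (List.singleton_sublist.mpr h) a

theorem detour {l : List (Fin d → ℤ)} {x : Fin d → ℤ} (h : x ∈ l) (a b : Fin d → ℤ) :
    ∃ l' : List (Fin d → ℤ), (∀ y ∈ l, y ∈ l') ∧ b ∈ l' ∧ len a l' ≤ len a l + 2 * D x b := by
  induction l generalizing a with
  | nil => simp at h
  | cons y l ih =>
    rcases List.mem_cons.mp h with rfl | h
    · refine ⟨x :: b :: x :: l, ?_, by simp, ?_⟩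
      · intro z hz; simp only [List.mem_cons] at hz ⊢; tauto
      · simp only [len]; rw [D_comm b x]; linarith
    · obtain ⟨l', h1, h2, h3⟩ := ih h y
      refine ⟨y :: l', ?_, by simp [h2], ?_⟩
      · intro z hz
        rcases List.mem_cons.mp hz with rfl | hz
        · simp
        · simp [h1 z hz]
      · simp only [len]; linarith

theorem len_map (f : (Fin d → ℤ) → (Fin d → ℤ)) (hf : ∀ x y, D (f x) (f y) ≤ D x y)
    (a : Fin d → ℤ) (l : List (Fin d → ℤ)) : len (f a) (l.map f) ≤ len a l := by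
  induction l generalizing a with
  | nil => simp [len]
  | cons b l ih => simp only [List.map_cons, len]; linarith [hf a b, ih b]

/-- `S` is covered by a path from `a` of length at most `L`. -/
def Tour (a : Fin d → ℤ) (S : Finset (Fin d → ℤ)) (L : ℤ) : Prop :=
  ∃ l : List (Fin d → ℤ), (∀ x ∈ S, x ∈ l) ∧ len a l ≤ L

theorem Tour.mono {a : Fin d → ℤ} {S S' : Finset (Fin d → ℤ)} {L L' : ℤ} (h : Tour a S L)
    (hS : S' ⊆ S) (hL : L ≤ L') : Tour a S' L' := by
  obtain ⟨l, h1, h2⟩ := h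
  exact ⟨l, fun x hx => h1 x (hS hx), h2.trans hL⟩

theorem Tour.insert {a : Fin d → ℤ} {S : Finset (Fin d → ℤ)} {L : ℤ} (h : Tour a S L)
    {x : Fin d → ℤ} (hx : x ∈ S) (b : Fin d → ℤ) : Tour a (insert b S) (L + 2 * D x b) := by
  obtain ⟨l, h1, h2⟩ := h
  obtain ⟨l', k1, k2, k3⟩ := detour (h1 x hx) a b
  refine ⟨l', fun y hy => ?_, by linarith⟩
  rcases mem_insert.mp hy with rfl | hy
  · exact k2
  · exact k1 y (h1 y hy)

theorem Tour.image {a : Fin d → ℤ} {S : Finset (Fin d → ℤ)} {L : ℤ} (h : Tour a S L)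
    (f : (Fin d → ℤ) → (Fin d → ℤ)) (hf : ∀ x y, D (f x) (f y) ≤ D x y) :
    Tour (f a) (S.image f) L := by
  obtain ⟨l, h1, h2⟩ := h
  refine ⟨l.map f, fun y hy => ?_, (len_map f hf a l).trans h2⟩
  obtain ⟨x, hx, rfl⟩ := mem_image.mp hy
  exact List.mem_map_of_mem (h1 x hx)

theorem Tour.near {a : Fin d → ℤ} {K : Finset (Fin d → ℤ)} {L r : ℤ} (h : Tour a K L)
    (S : Finset (Fin d → ℤ)) (hS : ∀ y ∈ S, ∃ x ∈ K, D x y ≤ r) :
    Tour a (K ∪ S) (L + 2 * r * S.card) := by
  induction S using Finset.induction_on with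
  | empty => simpa using h
  | insert b S hb ih =>
    obtain ⟨x, hx, hxb⟩ := hS b (mem_insert_self _ _)
    have := (ih fun y hy => hS y (mem_insert_of_mem hy)).insert (mem_union_left S hx) b
    refine this.mono (by rw [union_insert]) ?_
    rw [card_insert_of_notMem hb]; push_cast; linarith

theorem Tour.start {a : Fin d → ℤ} {S : Finset (Fin d → ℤ)} {L : ℤ} (h : Tour a S L)
    (b : Fin d → ℤ) : Tour b S (D b a + L) := by
  obtain ⟨l, h1, h2⟩ := h
  exact ⟨l, h1, (len_start b a l).trans (by linarith)⟩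

theorem Tour.D_le {a : Fin d → ℤ} {S : Finset (Fin d → ℤ)} {L : ℤ} (h : Tour a S L)
    {x : Fin d → ℤ} (hx : x ∈ S) : D a x ≤ L := by
  obtain ⟨l, h1, h2⟩ := h
  exact (D_le_len (h1 x hx) a).trans h2

theorem tour_of_connected (K : Finset (Fin d → ℤ)) {a : Fin d → ℤ} (ha : a ∈ K)
    (hK : ∀ T ⊆ K, T.Nonempty → T ≠ K → ∃ x ∈ T, ∃ y ∈ K, y ∉ T ∧ D x y ≤ 2) :
    Tour a K (4 * K.card) := by
  have key : ∀ j : ℕ, j + 1 ≤ K.card → ∃ T ⊆ K, T.card = j + 1 ∧ Tour a T (4 * j) := by
    intro j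
    induction j with
    | zero =>
      intro _
      exact ⟨{a}, by simpa using ha, by simp, [a], by simp, by simp [len]⟩
    | succ j ih =>
      intro hj
      obtain ⟨T, hT, hc, ht⟩ := ih (by omega)
      obtain ⟨x, hx, y, hy, hyT, hxy⟩ := hK T hT (card_pos.mp (by omega))
        (by rintro rfl; omega)
      refine ⟨insert y T, insert_subset hy hT, by rw [card_insert_of_notMem hyT, hc], ?_⟩
      refine (ht.insert hx y).mono Subset.rfl ?_
      push_cast; linarith
  have hpos : 0 < K.card := card_pos.mpr ⟨a, ha⟩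
  obtain ⟨T, hT, hc, ht⟩ := key (K.card - 1) (by omega)
  have : T = K := eq_of_subset_of_card_le hT (by omega)
  subst this
  refine ht.mono Subset.rfl ?_
  have : ((T.card - 1 : ℕ) : ℤ) ≤ T.card := by exact_mod_cast Nat.sub_le _ _
  linarith

theorem sum_exp_int {lam : ℝ} (hl : 0 < lam) (a : ℤ) (W : Finset ℤ) :
    ∑ t ∈ W, Real.exp (-(lam * (|a - t| : ℤ))) ≤ 1 + 2 / lam := by
  set q := Real.exp (-lam) with hq
  have hq0 : 0 < q := Real.exp_pos _
  have hq1 : q < 1 := Real.exp_lt_one_iff.mpr (by linarith)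
  have hs : HasSum (fun t : ℤ => Real.exp (-(lam * (|t| : ℤ)))) ((1 - q)⁻¹ + q * (1 - q)⁻¹) := by
    apply HasSum.of_nat_of_neg_add_one
    · have := hasSum_geometric_of_lt_one hq0.le hq1
      refine HasSum.congr_fun this fun n => ?_
      rw [hq, ← Real.exp_nat_mul]; congr 1; simp [mul_comm]
    · have := (hasSum_geometric_of_lt_one hq0.le hq1).mul_left q
      refine HasSum.congr_fun this fun n => ?_
      rw [← pow_succ', hq, ← Real.exp_nat_mul]; congr 1
      rw [abs_neg, abs_of_nonneg (by positivity)]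
      push_cast; ring
  have h1 : ∑ t ∈ W, Real.exp (-(lam * (|a - t| : ℤ)))
      = ∑ t ∈ W.image (fun t => a - t), Real.exp (-(lam * (|t| : ℤ))) := by
    rw [Finset.sum_image]
    intro x _ y _ h
    simpa using h
  rw [h1]
  refine (sum_le_hasSum _ (fun t _ => (Real.exp_pos _).le) hs).trans ?_
  have h2 : lam + 1 ≤ Real.exp lam := Real.add_one_le_exp lam
  have h3 : q * Real.exp lam = 1 := by rw [hq, ← Real.exp_add]; simp
  have h4 : 0 < 1 - q := by linarith
  have h5 : q * lam ≤ 1 - q := by nlinarith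
  have e1 : (1 - q)⁻¹ + q * (1 - q)⁻¹ = 1 + 2 * (q / (1 - q)) := by field_simp; ring
  have h6 : q / (1 - q) ≤ 1 / lam := by
    rw [div_le_div_iff₀ h4 hl]; linarith
  rw [e1, show 2 / lam = 2 * (1 / lam) by ring]
  linarith

theorem sum_exp_D {lam : ℝ} (hl : 0 < lam) (a : Fin d → ℤ) (U : Finset (Fin d → ℤ)) :
    ∑ b ∈ U, Real.exp (-(lam * (D a b : ℤ))) ≤ (1 + 2 / lam) ^ d := by
  have hsub : U ⊆ Fintype.piFinset (fun i => U.image (fun b => b i)) := fun b hb =>
    Fintype.mem_piFinset.mpr fun i => mem_image_of_mem _ hb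
  refine (Finset.sum_le_sum_of_subset_of_nonneg hsub fun _ _ _ => (Real.exp_pos _).le).trans ?_
  have e1 : ∀ b : Fin d → ℤ, Real.exp (-(lam * (D a b : ℤ)))
      = ∏ i, Real.exp (-(lam * (|a i - b i| : ℤ))) := by
    intro b
    rw [← Real.exp_sum, D]; congr 1
    push_cast
    rw [Finset.mul_sum, Finset.sum_neg_distrib]
  simp only [e1]
  rw [← Finset.prod_univ_sum (fun i => U.image (fun b => b i))
    (fun i t => Real.exp (-(lam * (|a i - t| : ℤ))))]
  refine (Finset.prod_le_prod (fun i _ => Finset.sum_nonneg fun _ _ => (Real.exp_pos _).le)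
    (fun i _ => sum_exp_int hl (a i) _)).trans_eq ?_
  simp

/-- lists of length at most `m` over the alphabet `U` -/
def Lst (U : Finset (Fin d → ℤ)) : ℕ → Finset (List (Fin d → ℤ))
  | 0 => {[]}
  | m + 1 => insert [] ((U ×ˢ Lst U m).image fun q => q.1 :: q.2)

theorem mem_Lst (U : Finset (Fin d → ℤ)) (m : ℕ) (l : List (Fin d → ℤ)) (h1 : ∀ x ∈ l, x ∈ U)
    (h2 : l.length ≤ m) : l ∈ Lst U m := by
  induction m generalizing l with
  | zero => simp [Lst, List.length_eq_zero_iff.mp (Nat.le_zero.mp h2)]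
  | succ m ih =>
    cases l with
    | nil => simp [Lst]
    | cons b l =>
      refine mem_insert_of_mem (mem_image.mpr ⟨(b, l), mem_product.mpr ⟨h1 b (by simp), ?_⟩, rfl⟩)
      exact ih l (fun x hx => h1 x (by simp [hx])) (by simpa using h2)

theorem sum_Lst {lam : ℝ} (hl : 0 < lam) (U : Finset (Fin d → ℤ)) (m : ℕ) (a : Fin d → ℤ) :
    ∑ l ∈ Lst U m, Real.exp (-(lam * (len a l : ℤ))) ≤ (1 + (1 + 2 / lam) ^ d) ^ m := by
  induction m generalizing a with
  | zero => simp [Lst, len]
  | succ m ih =>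
    set Z := (1 + 2 / lam) ^ d with hZ
    have hZ0 : 0 ≤ Z := by positivity
    have h1 : (1 : ℝ) ≤ (1 + Z) ^ m := one_le_pow₀ (by linarith)
    rw [Lst, Finset.sum_insert (by simp), Finset.sum_image (by
      rintro ⟨b, l⟩ _ ⟨b', l'⟩ _ h
      simpa using h), Finset.sum_product]
    have h2 : ∑ b ∈ U, ∑ l ∈ Lst U m, Real.exp (-(lam * (len a (b :: l) : ℤ)))
        ≤ ∑ b ∈ U, Real.exp (-(lam * (D a b : ℤ))) * (1 + Z) ^ m := by
      refine Finset.sum_le_sum fun b _ => ?_
      refine le_trans (le_of_eq ?_) (mul_le_mul_of_nonneg_left (ih b) (Real.exp_pos _).le)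
      rw [Finset.mul_sum]
      refine Finset.sum_congr rfl fun l _ => ?_
      rw [← Real.exp_add]; congr 1; simp only [len]; push_cast; ring
    rw [← Finset.sum_mul] at h2
    have h3 := mul_le_mul_of_nonneg_right (sum_exp_D hl a U) (show 0 ≤ (1 + Z) ^ m by positivity)
    simp only [len, Int.cast_zero, mul_zero, neg_zero, Real.exp_zero] at h2 ⊢
    rw [pow_succ]
    nlinarith

theorem card_tours_le {lam : ℝ} (hl : 0 < lam) (a : Fin d → ℤ) (m : ℕ) (L : ℤ)
    (F : Finset (Finset (Fin d → ℤ))) (hF : ∀ S ∈ F, S.card ≤ m ∧ Tour a S L) :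
    (F.card : ℝ) ≤ (1 + (1 + 2 / lam) ^ d) ^ m * Real.exp (lam * L) := by
  set U := F.biUnion id with hU
  have hsub : F ⊆ ((Lst U m).filter fun l => len a l ≤ L).image List.toFinset := by
    intro S hS
    obtain ⟨h1, l, h2, h3⟩ := hF S hS
    have hto : ((l.filter fun x => x ∈ S).dedup).toFinset = S := by
      ext x
      simp only [List.mem_toFinset, List.mem_dedup, List.mem_filter, decide_eq_true_eq]
      exact ⟨fun h => h.2, fun h => ⟨h2 x h, h⟩⟩
    refine mem_image.mpr ⟨(l.filter fun x => x ∈ S).dedup, mem_filter.mpr ⟨?_, ?_⟩, hto⟩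
    · refine mem_Lst U m _ (fun x hx => ?_) ?_
      · exact mem_biUnion.mpr ⟨S, hS, by rw [← hto]; exact List.mem_toFinset.mpr hx⟩
      · rw [← List.toFinset_card_of_nodup (List.nodup_dedup _), hto]; exact h1
    · exact (len_sublist ((List.dedup_sublist _).trans List.filter_sublist) a).trans h3
  have h1 : F.card ≤ ((Lst U m).filter fun l => len a l ≤ L).card :=
    (card_le_card hsub).trans card_image_le
  have h2 : (((Lst U m).filter fun l => len a l ≤ L).card : ℝ)
      ≤ ∑ l ∈ Lst U m, Real.exp (-(lam * (len a l : ℤ))) * Real.exp (lam * L) := by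
    rw [Finset.card_filter]
    push_cast
    refine Finset.sum_le_sum fun l _ => ?_
    split_ifs with h
    · rw [← Real.exp_add]
      have : ((len a l : ℤ) : ℝ) ≤ L := by exact_mod_cast h
      exact Real.one_le_exp (by nlinarith)
    · positivity
  rw [← Finset.sum_mul] at h2
  have h3 := mul_le_mul_of_nonneg_right (sum_Lst hl U m a) (Real.exp_pos (lam * L)).le
  have h1' : (F.card : ℝ) ≤ ((Lst U m).filter fun l => len a l ≤ L).card := by exact_mod_cast h1
  linarith

end Pool.Agent.P.MP_985e29_pr.Hi
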